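import Pool.Agent.W5h22.QM.G
import Pool.Agent.W5h22.CD.E

/-!
# QM.I: dimension one and residual
-/

set_option autoImplicit false

namespace Pool.Agent.W5h22.QM

open Finset Filter MeasureTheory
open Pool.Agent.Y882.SI (gset)
open Pool.Agent.Y843.HS (Pr VV Sv Pr_mem Pr_prime)
open Pool.Agent.W5h22.CD (upI floor_low near dim_good)

/-- the almost primes at a real scale -/
def PR (a : ℤ) (x : ℝ) (n : ℕ) : Prop :=
  1 ≤ n ∧ ((n : ℤ) ^ 2 + a).natAbs.primeFactorsList.length ≤ 3 ∧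
    ∀ p : ℕ, p.Prime → (p : ℤ) ∣ (n : ℤ) ^ 2 + a → x ^ (1 / 6 : ℝ) ≤ p

open Classical in
theorem loP3 (a : ℤ) (ha : ¬ IsSquare (-a)) : ∃ c : ℝ, 0 < c ∧ ∀ θ : ℝ, 0 < θ → ∃ X₀ : ℕ, ∀ X : ℕ, X₀ ≤ X →
    ∀ N H : ℕ, 1 ≤ N → N + H ≤ X → θ * X ≤ H →
      c * H / Real.log X ≤ ((gset a 3 ((X : ℝ) ^ (29 / 160 : ℝ)) N H).card : ℝ) := by
  obtain ⟨δ, hδ, X1, hF⟩ := finP3 a ha
  refine ⟨δ / 2, by positivity, ?_⟩
  intro θ hθ
  have ev1 : ∀ᶠ X : ℕ in atTop, 4 / θ ≤ (X : ℝ) ^ (1 / 10 : ℝ) :=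
    ((tendsto_rpow_atTop (by norm_num)).comp tendsto_natCast_atTop_atTop).eventually_ge_atTop _
  obtain ⟨X2, hX2⟩ := eventually_atTop.1 ev1
  refine ⟨max (max X1 X2) 3, ?_⟩
  intro X hX N H hN hNH hH
  have hX1 : X1 ≤ X := by omega
  have hX2' : X2 ≤ X := by omega
  have hX3 : 3 ≤ X := by omega
  have hXr : (3 : ℝ) ≤ X := by exact_mod_cast hX3
  have hX0 : (0 : ℝ) < X := by linarith
  have hX1r : (1 : ℝ) ≤ X := by linarith
  have hlog : 0 < Real.log X := Real.log_pos (by linarith)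
  have h1 := hX2 X hX2'
  have h2 : (X : ℝ) ^ (9 / 10 : ℝ) * (X : ℝ) ^ (1 / 10 : ℝ) = X := by
    rw [← Real.rpow_add hX0]
    norm_num
  have h4 : 4 * (X : ℝ) ^ (9 / 10 : ℝ) ≤ θ * X := by
    rw [div_le_iff₀ hθ] at h1
    calc 4 * (X : ℝ) ^ (9 / 10 : ℝ) ≤ ((X : ℝ) ^ (1 / 10 : ℝ) * θ) * (X : ℝ) ^ (9 / 10 : ℝ) := by gcongr
      _ = θ * ((X : ℝ) ^ (9 / 10 : ℝ) * (X : ℝ) ^ (1 / 10 : ℝ)) := by ring
      _ = θ * X := by rw [h2]
  have h35 : (X : ℝ) ^ (3 / 5 : ℝ) ≤ (X : ℝ) ^ (9 / 10 : ℝ) :=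
    Real.rpow_le_rpow_of_exponent_le hX1r (by norm_num)
  have h3 : 0 < (X : ℝ) ^ (3 / 5 : ℝ) := by positivity
  have h3' : (1 : ℝ) ≤ (X : ℝ) ^ (3 / 5 : ℝ) := Real.one_le_rpow hX1r (by norm_num)
  set L := ⌊(X : ℝ) ^ (3 / 5 : ℝ)⌋₊ with hL
  have hLle : (L : ℝ) ≤ (X : ℝ) ^ (3 / 5 : ℝ) := Nat.floor_le h3.le
  have hLH : L ≤ H := by
    have : (L : ℝ) ≤ H := by linarith
    exact_mod_cast this
  set B := δ * (X : ℝ) ^ (3 / 5 : ℝ) / Real.log X with hB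
  have hB0 : 0 ≤ B := by positivity
  obtain ⟨Q, hQ⟩ : ∃ Q : ℕ → Prop, Q = fun n : ℕ => (((n : ℤ) ^ 2 + a).natAbs.primeFactorsList.length ≤ 3 ∧
    ∀ p : ℕ, p.Prime → (p : ℤ) ∣ (n : ℤ) ^ 2 + a → (X : ℝ) ^ (29 / 160 : ℝ) ≤ p) := ⟨_, rfl⟩
  have hQn : ∀ n : ℕ, Q n ↔ (((n : ℤ) ^ 2 + a).natAbs.primeFactorsList.length ≤ 3 ∧
    ∀ p : ℕ, p.Prime → (p : ℤ) ∣ (n : ℤ) ^ 2 + a → (X : ℝ) ^ (29 / 160 : ℝ) ≤ p) := by
    intro n
    rw [hQ]
  have e6 : ∀ n K : ℕ, gset a 3 ((X : ℝ) ^ (29 / 160 : ℝ)) n K = (Ioc n (n + K)).filter Q := by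
    intro n K
    ext m
    unfold gset
    rw [mem_filter, mem_filter, hQn]
  have hE : (((Icc N (N + (H - L))).filter (fun n => (((Ioc n (n + L)).filter Q).card : ℝ) < B)).card : ℝ) ≤
      (X : ℝ) ^ (9 / 10 : ℝ) := by
    refine le_trans ?_ (hF X hX1)
    apply Nat.cast_le.2
    apply card_le_card
    intro n hn
    rw [mem_filter, mem_Icc] at hn
    rw [mem_filter, mem_Icc, e6]
    exact ⟨⟨by omega, by omega⟩, hn.2⟩
  have key2 := local_short Q N L H B ((X : ℝ) ^ (9 / 10 : ℝ)) hLH hB0 hE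
  rw [← e6] at key2
  have h5 : (H : ℝ) / 2 ≤ (H : ℝ) - L - (X : ℝ) ^ (9 / 10 : ℝ) := by linarith
  have h6 : (H : ℝ) / 2 * B ≤ L * ((gset a 3 ((X : ℝ) ^ (29 / 160 : ℝ)) N H).card : ℝ) :=
    le_trans (mul_le_mul_of_nonneg_right h5 hB0) key2
  have h7 : (L : ℝ) * ((gset a 3 ((X : ℝ) ^ (29 / 160 : ℝ)) N H).card : ℝ) ≤
      (X : ℝ) ^ (3 / 5 : ℝ) * ((gset a 3 ((X : ℝ) ^ (29 / 160 : ℝ)) N H).card : ℝ) :=
    mul_le_mul_of_nonneg_right hLle (Nat.cast_nonneg _)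
  have h8 : (H : ℝ) / 2 * B = (X : ℝ) ^ (3 / 5 : ℝ) * (δ / 2 * H / Real.log X) := by
    rw [hB]; ring
  rw [h8] at h6
  exact le_of_mul_le_mul_left (h6.trans h7) h3

/-- the density -/
noncomputable def Vx (x : ℝ) : ℝ := 1 / Real.log (max x 3)

theorem Vx_pos (x : ℝ) : 0 < Vx x := by
  unfold Vx
  have : 0 < Real.log (max x 3) := Real.log_pos (lt_of_lt_of_le (by norm_num) (le_max_right x 3))
  positivity

theorem Vx_eq {x : ℝ} (h : 3 ≤ x) : Vx x = 1 / Real.log x := by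
  unfold Vx
  rw [max_eq_left h]

open Classical in
theorem hLo (a : ℤ) (ha : ¬ IsSquare (-a)) : ∃ c : ℝ, 0 < c ∧ ∀ u v : ℝ, 0 ≤ u → u < v → ∃ x₀ : ℝ, ∀ x : ℝ,
    x₀ ≤ x → ∃ T : Finset ℕ, (∀ p ∈ T, u * x < (p : ℝ) ∧ (p : ℝ) ≤ v * x ∧ PR a x p) ∧
      c * (v - u) * x * Vx x ≤ T.card := by
  obtain ⟨c, hc, h⟩ := loP3 a ha
  refine ⟨c / 4, by positivity, ?_⟩
  intro u v hu huv
  have hv : 0 < v := by linarith
  have hvu : 0 < v - u := by linarith
  obtain ⟨X0, hX0⟩ := h ((v - u) / (2 * v)) (by positivity)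
  have ev1 : ∀ᶠ x : ℝ in atTop, (2 / v) ^ (29 / 160 : ℝ) ≤ x ^ (7 / 480 : ℝ) :=
    (tendsto_rpow_atTop (by norm_num)).eventually_ge_atTop _
  obtain ⟨x1, hx1⟩ := eventually_atTop.1 ev1
  refine ⟨max (max x1 (max v 3)) (max ((X0 + 4) / v) (4 / (v - u))), ?_⟩
  intro x hx
  have hxa : x1 ≤ x := ((le_max_left _ _).trans (le_max_left _ _)).trans hx
  have hxv : v ≤ x := (((le_max_left _ _).trans (le_max_right _ _)).trans (le_max_left _ _)).trans hx
  have hx3 : 3 ≤ x := (((le_max_right _ _).trans (le_max_right _ _)).trans (le_max_left _ _)).trans hx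
  have hxX : (X0 + 4) / v ≤ x := ((le_max_left _ _).trans (le_max_right _ _)).trans hx
  have hxu : 4 / (v - u) ≤ x := ((le_max_right _ _).trans (le_max_right _ _)).trans hx
  have hx0 : 0 < x := by linarith
  rw [div_le_iff₀ hv] at hxX
  rw [div_le_iff₀ hvu] at hxu
  have hX00 : (0 : ℝ) ≤ X0 := Nat.cast_nonneg _
  set X := ⌊v * x⌋₊ with hX
  have hXle : (X : ℝ) ≤ v * x := Nat.floor_le (by positivity)
  have hXge : v * x - 1 < X := by
    have := Nat.lt_floor_add_one (v * x)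
    rw [← hX] at this
    linarith
  have hX0X : X0 ≤ X := by
    have : (X0 : ℝ) ≤ X := by linarith
    exact_mod_cast this
  have hXr : (3 : ℝ) < X := by linarith
  set N := ⌊u * x⌋₊ + 1 with hN
  have hNr : (N : ℝ) ≤ u * x + 1 := by
    rw [hN]
    push_cast
    linarith [Nat.floor_le (show 0 ≤ u * x by positivity)]
  have hNgt : u * x < N := by
    rw [hN]
    push_cast
    exact Nat.lt_floor_add_one _
  have hNX : N ≤ X := by
    have : (N : ℝ) ≤ X := by nlinarith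
    exact_mod_cast this
  have hHr : ((X - N : ℕ) : ℝ) = X - N := by rw [Nat.cast_sub hNX]
  have hHge : (v - u) * x / 2 ≤ ((X - N : ℕ) : ℝ) := by
    rw [hHr]
    nlinarith
  have h1 := hX0 X hX0X N (X - N) (by omega) (by omega) (by
    refine le_trans ?_ hHge
    rw [div_mul_eq_mul_div, div_le_div_iff₀ (by positivity) (by norm_num)]
    nlinarith)
  refine ⟨gset a 3 ((X : ℝ) ^ (29 / 160 : ℝ)) N (X - N), ?_, ?_⟩
  · intro n hn
    unfold gset at hn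
    rw [mem_filter, mem_Ioc] at hn
    obtain ⟨⟨hn1, hn2⟩, hn3, hn4⟩ := hn
    have hn1r : (N : ℝ) < n := by exact_mod_cast hn1
    have hn2r : (n : ℝ) ≤ X := by exact_mod_cast (show n ≤ X by omega)
    refine ⟨by linarith, by linarith, by omega, hn3, fun p hp hd => le_trans ?_ (hn4 p hp hd)⟩
    have h2 : v / 2 * x ≤ X := by linarith
    have h3 : (v / 2 * x) ^ (29 / 160 : ℝ) ≤ (X : ℝ) ^ (29 / 160 : ℝ) :=
      Real.rpow_le_rpow (by positivity) h2 (by norm_num)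
    refine le_trans ?_ h3
    have h4 := hx1 x hxa
    rw [Real.mul_rpow (by positivity) hx0.le]
    have h5 : x ^ (29 / 160 : ℝ) = x ^ (1 / 6 : ℝ) * x ^ (7 / 480 : ℝ) := by
      rw [← Real.rpow_add hx0]
      norm_num
    have h6 : (v / 2) ^ (29 / 160 : ℝ) * (2 / v) ^ (29 / 160 : ℝ) = 1 := by
      rw [← Real.mul_rpow (by positivity) (by positivity)]
      rw [show v / 2 * (2 / v) = 1 by field_simp]
      exact Real.one_rpow _
    rw [h5]
    have h7 : 0 < (v / 2) ^ (29 / 160 : ℝ) := by positivity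
    have h8 : 0 < x ^ (1 / 6 : ℝ) := by positivity
    calc x ^ (1 / 6 : ℝ) = x ^ (1 / 6 : ℝ) * ((v / 2) ^ (29 / 160 : ℝ) * (2 / v) ^ (29 / 160 : ℝ)) := by
          rw [h6, mul_one]
      _ ≤ x ^ (1 / 6 : ℝ) * ((v / 2) ^ (29 / 160 : ℝ) * x ^ (7 / 480 : ℝ)) := by gcongr
      _ = _ := by ring
  · refine le_trans ?_ h1
    rw [Vx_eq hx3]
    have hlx : 0 < Real.log x := Real.log_pos (by linarith)
    have hlX : 0 < Real.log X := Real.log_pos (by linarith)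
    have hl : Real.log X ≤ 2 * Real.log x := by
      calc Real.log X ≤ Real.log (x * x) := Real.log_le_log (by linarith) (by nlinarith)
        _ = 2 * Real.log x := by rw [Real.log_mul hx0.ne' hx0.ne']; ring
    calc c / 4 * (v - u) * x * (1 / Real.log x) = c * ((v - u) * x / 2) / (2 * Real.log x) := by
          field_simp
          norm_num
      _ ≤ c * ((X - N : ℕ) : ℝ) / (2 * Real.log x) := by gcongr
      _ ≤ c * ((X - N : ℕ) : ℝ) / Real.log X := by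
          apply div_le_div_of_nonneg_left (by positivity) hlX hl

open Classical in
theorem hUp (a : ℤ) (ha : ¬ IsSquare (-a)) {s : ℝ} (hs : 0 < s) (hs1 : s < 1) : ∃ C x₁ : ℝ, 0 < C ∧
    ∀ x : ℝ, x₁ ≤ x → ∀ A L : ℕ, x ^ (1 - s) ≤ L → ∀ T : Finset ℕ,
      (∀ p ∈ T, A < p ∧ p ≤ A + L ∧ PR a x p) → (T.card : ℝ) ≤ C * L * Vx x := by
  obtain ⟨C, hC, X1, hup⟩ := upI 2 8 13 (by norm_num) (by norm_num) (by norm_num) (by norm_num) hs hs1
  obtain ⟨C2, hC2, hV⟩ := VV_up a ha 8 (by norm_num)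
  have e1 := floor_low (show (0 : ℝ) < 1 / ((13 : ℕ) : ℝ) by norm_num) 3
  obtain ⟨X2, hX2⟩ := eventually_atTop.1 e1
  refine ⟨C * (C2 * 52), (X1 + X2 + 4 : ℕ), by positivity, ?_⟩
  intro x hx A L hL T hT
  have hx4 : (4 : ℝ) ≤ x := by
    push_cast at hx
    have : (0 : ℝ) ≤ X1 := Nat.cast_nonneg _
    have : (0 : ℝ) ≤ X2 := Nat.cast_nonneg _
    linarith
  have hx0 : 0 < x := by linarith
  set X := ⌊x⌋₊ with hX
  have hXle : (X : ℝ) ≤ x := Nat.floor_le hx0.le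
  have hXge : X1 + X2 + 4 ≤ X := Nat.le_floor hx
  have hXlt : x < X + 1 := Nat.lt_floor_add_one x
  have hXr : (4 : ℝ) ≤ X := by exact_mod_cast (show 4 ≤ X by omega)
  have hlX : 0 < Real.log X := Real.log_pos (by linarith)
  have hlx : 0 < Real.log x := Real.log_pos (by linarith)
  have hl : Real.log x ≤ 2 * Real.log X := by
    calc Real.log x ≤ Real.log ((X : ℝ) * X) := Real.log_le_log hx0 (by nlinarith)
      _ = 2 * Real.log X := by rw [Real.log_mul (by linarith) (by linarith)]; ring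
  obtain ⟨hY3, hYl⟩ := hX2 X (by omega)
  have hYle : ((⌊(X : ℝ) ^ (1 / ((13 : ℕ) : ℝ))⌋₊ : ℕ) : ℝ) ≤ (X : ℝ) ^ (1 / ((13 : ℕ) : ℝ)) :=
    Nat.floor_le (by positivity)
  set Y := ⌊(X : ℝ) ^ (1 / ((13 : ℕ) : ℝ))⌋₊ with hY
  have hSv : Sv 2 8 Y (Zq a) := by
    intro p hp
    refine ⟨Zq_card a (Pr_prime hp), fun c hc => ?_⟩
    unfold Zq at hc
    exact mem_range.1 (mem_filter.1 hc).1
  have hL' : (X : ℝ) ^ (1 - s) ≤ L := le_trans (Real.rpow_le_rpow (by linarith) hXle (by linarith)) hL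
  have h1 := hup X (by omega) (Zq a) hSv A L hL'
  have h2 : T ⊆ (Ioc A (A + L)).filter (fun n => ∀ q ∈ Pr 8 Y, n % q ∉ Zq a q) := by
    intro n hn
    obtain ⟨t1, t2, t3⟩ := hT n hn
    rw [mem_filter, mem_Ioc]
    refine ⟨⟨t1, t2⟩, ?_⟩
    intro p hp hm
    have h3 := t3.2.2 p (Pr_prime hp) ((mem_Zq (Pr_prime hp).pos).1 hm)
    have h4 : (p : ℝ) ≤ Y := by exact_mod_cast (Pr_mem.1 hp).1.2
    have h5 : (X : ℝ) ^ (1 / ((13 : ℕ) : ℝ)) < x ^ (1 / 6 : ℝ) := by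
      calc (X : ℝ) ^ (1 / ((13 : ℕ) : ℝ)) < (X : ℝ) ^ (1 / 6 : ℝ) := by
            apply Real.rpow_lt_rpow_of_exponent_lt (by linarith)
            norm_num
        _ ≤ x ^ (1 / 6 : ℝ) := Real.rpow_le_rpow (by linarith) hXle (by norm_num)
    linarith
  have h3 : (T.card : ℝ) ≤ C * L * VV (Zq a) 8 Y := le_trans (by exact_mod_cast card_le_card h2) h1
  refine h3.trans ?_
  have h4 : VV (Zq a) 8 Y ≤ C2 * 52 * Vx x := by
    rw [Vx_eq (by linarith)]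
    refine (hV Y hY3).trans ?_
    have h5 : 0 < 1 / ((13 : ℕ) : ℝ) / 2 * Real.log X := by positivity
    calc C2 / Real.log Y ≤ C2 / (1 / ((13 : ℕ) : ℝ) / 2 * Real.log X) := div_le_div_of_nonneg_left hC2.le h5 hYl
      _ = C2 * 26 / Real.log X := by
          push_cast
          field_simp
          norm_num
      _ ≤ C2 * 26 / (Real.log x / 2) := by
          apply div_le_div_of_nonneg_left (by positivity) (by positivity)
          linarith
      _ = C2 * 52 * (1 / Real.log x) := by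
          field_simp
          norm_num
  calc C * L * VV (Zq a) 8 Y ≤ C * L * (C2 * 52 * Vx x) := mul_le_mul_of_nonneg_left h4 (by positivity)
    _ = _ := by ring

/-- an enumeration of the admissible `a` -/
theorem enum : ∃ g : ℕ → ℤ, (∀ i, ¬ IsSquare (-(g i))) ∧ ∀ a : ℤ, ¬ IsSquare (-a) → ∃ i, g i = a := by
  classical
  obtain ⟨f, hf⟩ := exists_surjective_nat ℤ
  refine ⟨fun i => if ¬ IsSquare (-(f i)) then f i else 1, ?_, ?_⟩
  · intro i
    show ¬ IsSquare (-(if ¬ IsSquare (-(f i)) then f i else 1))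
    by_cases h : ¬ IsSquare (-(f i))
    · rw [if_pos h]
      exact h
    · rw [if_neg h]
      rintro ⟨r, hr⟩
      nlinarith [mul_self_nonneg r]
  · intro a ha
    obtain ⟨i, hi⟩ := hf a
    refine ⟨i, ?_⟩
    show (if ¬ IsSquare (-(f i)) then f i else 1) = a
    rw [hi, if_pos ha]

/-- the points with infinitely many almost primes, for all `a` at once -/
def Inf (D : ℕ → ℕ) : Set ℝ := {α : ℝ | ∀ a : ℤ, ¬ IsSquare (-a) → ∃ᶠ k in atTop, P3 a (D k) ⌊α * (D k : ℝ)⌋₊}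

theorem dimInf (D : ℕ → ℕ) (hm : StrictMono D) (u v : ℝ) (hu : 0 ≤ u) (huv : u < v) :
    dimH (Inf D ∩ Set.Ioo u v) = 1 := by
  apply le_antisymm
  · exact (dimH_mono (Set.subset_univ _)).trans (le_of_eq Real.dimH_univ)
  obtain ⟨g, hg1, hg2⟩ := enum
  have hDt : Tendsto (fun k => (D k : ℝ)) atTop atTop :=
    tendsto_natCast_atTop_atTop.comp hm.tendsto_atTop
  refine dim_good (P := fun i => PR (g i)) (M := 2 * v + 1) (a := u + (v - u) / 3) (b := v - (v - u) / 3)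
    (by linarith) (by linarith) (by linarith) ?_ (fun _ k => (D k : ℝ)) (fun _ => hDt)
    (fun _ => 1 / 2) (fun _ => by norm_num) (fun _ => by norm_num) _ ?_
  · intro i s hs hs1
    obtain ⟨c, hc, hlo⟩ := hLo (g i) (hg1 i)
    obtain ⟨C, x1, hC, hup⟩ := hUp (g i) (hg1 i) hs hs1
    exact near (P := PR (g i)) Vx_pos hc (fun a b h1 h2 _ => hlo a b h1 h2) hs hs1 hC hup
  · intro y hy hyS
    refine ⟨?_, ⟨by linarith [hy.1], by linarith [hy.2]⟩⟩
    intro a ha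
    obtain ⟨i, hi⟩ := hg2 a ha
    refine (hyS i).mono ?_
    rintro k ⟨p, hp1, hp2⟩
    rw [hi] at hp1
    have hpf : ⌊y * (D k : ℝ)⌋₊ = p := by
      rw [abs_lt] at hp2
      have h0 : (0 : ℝ) ≤ p := Nat.cast_nonneg _
      rw [Nat.floor_eq_iff (by linarith)]
      constructor <;> linarith
    rw [hpf]
    exact hp1

theorem resInf (D : ℕ → ℕ) (hm : StrictMono D) : {α : ℝ | 0 < α → α ∈ Inf D} ∈ residual ℝ := by
  have hDt : Tendsto (fun k => (D k : ℝ)) atTop atTop :=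
    tendsto_natCast_atTop_atTop.comp hm.tendsto_atTop
  set U : ℤ → ℕ → Set ℝ := fun a N => Set.Iio 0 ∪ ⋃ k ∈ {k : ℕ | N ≤ k ∧ 0 < D k},
    ⋃ p ∈ {p : ℕ | P3 a (D k) p}, Set.Ioo ((p : ℝ) / D k) (((p : ℝ) + 1) / D k) with hU
  have hopen : ∀ a N, IsOpen (U a N) := by
    intro a N
    apply IsOpen.union isOpen_Iio
    exact isOpen_biUnion fun x _ => isOpen_biUnion fun p _ => isOpen_Ioo
  have hdense : ∀ a N, ¬ IsSquare (-a) → Dense (U a N) := by
    intro a N ha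
    rw [dense_iff_inter_open]
    intro V hV hVne
    obtain ⟨v, hv⟩ := hVne
    obtain ⟨ε, hε, hball⟩ := Metric.isOpen_iff.1 hV v hv
    rcases lt_or_ge v 0 with hv0 | hv0
    · exact ⟨v, hv, Or.inl hv0⟩
    obtain ⟨c, hc, hlo⟩ := hLo a ha
    obtain ⟨x₀, hx₀⟩ := hlo (v + ε / 4) (v + ε / 2) (by linarith) (by linarith)
    obtain ⟨k, hk1, hk2, hk3, hk4⟩ : ∃ k, N ≤ k ∧ x₀ ≤ (D k : ℝ) ∧ 4 / ε < (D k : ℝ) ∧ (1 : ℝ) ≤ D k := by
      have h1 := (((eventually_ge_atTop N).and (hDt.eventually_ge_atTop x₀)).and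
        ((hDt.eventually_gt_atTop (4 / ε)).and (hDt.eventually_ge_atTop 1))).exists
      obtain ⟨k, ⟨h1, h2⟩, h3, h4⟩ := h1
      exact ⟨k, h1, h2, h3, h4⟩
    have hx0 : (0 : ℝ) < D k := by linarith
    have hDk : 0 < D k := by exact_mod_cast hx0
    obtain ⟨T, hT1, hT2⟩ := hx₀ (D k : ℝ) hk2
    have h1 : 0 < c * (v + ε / 2 - (v + ε / 4)) * (D k : ℝ) * Vx (D k) := by
      have h2 : 0 < v + ε / 2 - (v + ε / 4) := by linarith
      have h3 := Vx_pos (D k)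
      positivity
    have h2 : 0 < T.card := by
      have : (0 : ℝ) < T.card := by linarith
      exact_mod_cast this
    obtain ⟨p, hp⟩ := Finset.card_pos.1 h2
    obtain ⟨h3, h4, h5⟩ := hT1 p hp
    rw [div_lt_iff₀ hε] at hk3
    obtain ⟨y, hy1, hy2⟩ := exists_between (show (p : ℝ) / D k < ((p : ℝ) + 1) / D k by
      apply div_lt_div_of_pos_right _ hx0
      linarith)
    refine ⟨y, hball ?_, Or.inr ?_⟩
    · rw [Metric.mem_ball, Real.dist_eq, abs_lt]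
      rw [div_lt_iff₀ hx0] at hy1
      rw [lt_div_iff₀ hx0] at hy2
      constructor
      · by_contra hcon
        push Not at hcon
        have : (y - v) * D k ≤ -ε * D k := mul_le_mul_of_nonneg_right hcon hx0.le
        nlinarith
      · by_contra hcon
        push Not at hcon
        have : ε * D k ≤ (y - v) * D k := mul_le_mul_of_nonneg_right hcon hx0.le
        nlinarith
    · rw [Set.mem_iUnion₂]
      refine ⟨k, ⟨hk1, hDk⟩, ?_⟩
      rw [Set.mem_iUnion₂]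
      exact ⟨p, h5, hy1, hy2⟩
  classical
  have hres : (⋂ a : ℤ, ⋂ N : ℕ, (if ¬ IsSquare (-a) then U a N else Set.univ)) ∈ residual ℝ := by
    rw [countable_iInter_mem]
    intro a
    rw [countable_iInter_mem]
    intro N
    by_cases h : ¬ IsSquare (-a)
    · rw [if_pos h]
      exact residual_of_dense_open (hopen a N) (hdense a N h)
    · rw [if_neg h]
      exact univ_mem
  refine mem_of_superset hres ?_
  intro α hα hα0 a ha
  rw [frequently_atTop]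
  intro N
  have h1 := Set.mem_iInter.1 (Set.mem_iInter.1 hα a) N
  rw [if_pos ha] at h1
  rcases h1 with h1 | h1
  · exact absurd hα0 (not_lt.2 (le_of_lt h1))
  rw [Set.mem_iUnion₂] at h1
  obtain ⟨k, ⟨hkN, hDk⟩, h2⟩ := h1
  rw [Set.mem_iUnion₂] at h2
  obtain ⟨p, hp, h3, h4⟩ := h2
  have hx0 : (0 : ℝ) < D k := by exact_mod_cast hDk
  rw [div_lt_iff₀ hx0] at h3
  rw [lt_div_iff₀ hx0] at h4
  refine ⟨k, hkN, ?_⟩
  have hpf : ⌊α * (D k : ℝ)⌋₊ = p := by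
    have h0 : (0 : ℝ) ≤ p := Nat.cast_nonneg _
    rw [Nat.floor_eq_iff (by positivity)]
    exact ⟨h3.le, h4⟩
  rw [hpf]
  exact hp

end Pool.Agent.W5h22.QM
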