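import Pool.Agent.W5h22.QM.C

/-!
# QM.D: upper bounds for the numbers of rough values, and of the pairs of rough values
-/

set_option autoImplicit false

namespace Pool.Agent.W5h22.QM

open Finset Filter
open Pool.Agent.Y843.HS (Pr VV Sv EE one_le_EE VV_ge VV_split Pr_mem Pr_prime)
open Pool.Agent.W5h22.CD (upI VV_pos pow_log floor_low)

/-- all prime factors of `n ^ 2 + a` are at least `x ^ (1 / 6)` -/
def Rx (a : ℤ) (x n : ℕ) : Prop :=
  ∀ p : ℕ, p.Prime → (p : ℤ) ∣ (n : ℤ) ^ 2 + a → (x : ℝ) ^ (1 / 6 : ℝ) ≤ p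

open Classical in
theorem single (a : ℤ) (ha : ¬ IsSquare (-a)) (t : ℕ) (ht : 1 ≤ t) : ∃ C : ℝ, 0 < C ∧ ∃ X₀ : ℕ, ∀ X : ℕ, X₀ ≤ X →
    ∀ A L : ℕ, (X : ℝ) ^ (1 / 4 : ℝ) ≤ L →
      (((Ioc A (A + L)).filter (fun n : ℕ => ∀ p ∈ Pr 8 ⌊(X : ℝ) ^ (1 / (t : ℝ))⌋₊,
        ¬ (p : ℤ) ∣ (n : ℤ) ^ 2 + a)).card : ℝ) ≤ C * L / Real.log X := by
  have ht0 : (0 : ℝ) < t := by exact_mod_cast ht
  obtain ⟨C, hC, X1, hup⟩ := upI 2 8 t (by norm_num) (by norm_num) (by norm_num) ht (s := 3 / 4) (by norm_num)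
    (by norm_num)
  obtain ⟨C2, hC2, hV⟩ := VV_up a ha 8 (by norm_num)
  have e1 := floor_low (show (0 : ℝ) < 1 / (t : ℝ) by positivity) 3
  obtain ⟨X2, hX2⟩ := eventually_atTop.1 e1
  refine ⟨C * (C2 * (2 * t)), by positivity, max (max X1 X2) 2, ?_⟩
  intro X hX A L hL
  have hX1 : X1 ≤ X := by omega
  have hX2' : X2 ≤ X := by omega
  have hX3 : (1 : ℝ) < X := by exact_mod_cast (show 1 < X by omega)
  have hlX : 0 < Real.log X := Real.log_pos hX3
  obtain ⟨hY3, hYl⟩ := hX2 X hX2'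
  set Y := ⌊(X : ℝ) ^ (1 / (t : ℝ))⌋₊ with hY
  have hSv : Sv 2 8 Y (Zq a) := by
    intro p hp
    refine ⟨Zq_card a (Pr_prime hp), fun c hc => ?_⟩
    unfold Zq at hc
    exact mem_range.1 (mem_filter.1 hc).1
  have e4 : (1 : ℝ) - 3 / 4 = 1 / 4 := by norm_num
  have h1 := hup X hX1 (Zq a) hSv A L (by rw [e4]; exact hL)
  have h2 : (Ioc A (A + L)).filter (fun n : ℕ => ∀ p ∈ Pr 8 Y, ¬ (p : ℤ) ∣ (n : ℤ) ^ 2 + a) =
      (Ioc A (A + L)).filter (fun n => ∀ q ∈ Pr 8 Y, n % q ∉ Zq a q) := by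
    apply filter_congr
    intro n _
    constructor
    · intro h p hp hm
      exact h p hp ((mem_Zq (Pr_prime hp).pos).1 hm)
    · intro h p hp hm
      exact h p hp ((mem_Zq (Pr_prime hp).pos).2 hm)
  rw [h2]
  have h3 := hV Y hY3
  have h4 : VV (Zq a) 8 Y ≤ C2 * (2 * t) / Real.log X := by
    refine h3.trans ?_
    have h5 : 0 < 1 / (t : ℝ) / 2 * Real.log X := by positivity
    calc C2 / Real.log Y ≤ C2 / (1 / (t : ℝ) / 2 * Real.log X) := div_le_div_of_nonneg_left hC2.le h5 hYl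
      _ = C2 * (2 * t) / Real.log X := by field_simp
  refine h1.trans ?_
  calc C * L * VV (Zq a) 8 Y ≤ C * L * (C2 * (2 * t) / Real.log X) := mul_le_mul_of_nonneg_left h4 (by positivity)
    _ = _ := by ring

open Classical in
theorem pairN (a : ℤ) (ha : ¬ IsSquare (-a)) : ∃ C : ℝ, 0 < C ∧ ∃ X₀ : ℕ, ∀ X : ℕ, X₀ ≤ X →
    ∀ g : ℕ, 2 ≤ g → g ≤ X → ∀ A L : ℕ, (X : ℝ) ^ (1 / 4 : ℝ) ≤ L →
      ∑ j ∈ range g, (((Ioc A (A + L)).filter (fun n : ℕ =>
        (∀ p ∈ Pr 8 ⌊(X : ℝ) ^ (1 / ((13 : ℕ) : ℝ))⌋₊, ¬ (p : ℤ) ∣ (n : ℤ) ^ 2 + a) ∧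
        (∀ p ∈ Pr 8 ⌊(X : ℝ) ^ (1 / ((13 : ℕ) : ℝ))⌋₊, ¬ (p : ℤ) ∣ ((g * n + j : ℕ) : ℤ) ^ 2 + a))).card : ℝ) ≤
          C * g * L / Real.log X ^ 2 := by
  obtain ⟨C, hC, X1, hup⟩ := upI 4 8 13 (by norm_num) (by norm_num) (by norm_num) (by norm_num) (s := 3 / 4)
    (by norm_num) (by norm_num)
  obtain ⟨C2, hC2, hV⟩ := VV_up a ha 8 (by norm_num)
  obtain ⟨K, hK1, hK⟩ := avgFull a ha
  have e1 := floor_low (show (0 : ℝ) < 1 / ((13 : ℕ) : ℝ) by norm_num) 3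
  have e2 := pow_log 1 10 (show (0 : ℝ) < 1 / ((13 : ℕ) : ℝ) by norm_num)
  obtain ⟨X2, hX2⟩ := eventually_atTop.1 (e1.and e2)
  refine ⟨C * K * (C2 * 26) ^ 2, by positivity, max (max X1 X2) 3, ?_⟩
  intro X hX g hg hgX A L hL
  have hX1 : X1 ≤ X := by omega
  have hX2' : X2 ≤ X := by omega
  have hX3 : (1 : ℝ) < X := by exact_mod_cast (show 1 < X by omega)
  have hlX : 0 < Real.log X := Real.log_pos hX3
  obtain ⟨⟨hY3, hYl⟩, hYp⟩ := hX2 X hX2'
  have hfl := Nat.lt_floor_add_one ((X : ℝ) ^ (1 / ((13 : ℕ) : ℝ)))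
  set Y := ⌊(X : ℝ) ^ (1 / ((13 : ℕ) : ℝ))⌋₊ with hY
  have hgY : 8 + Nat.log 4 g ≤ Y := by
    have h1 : ((Nat.log 4 g : ℕ) : ℝ) ≤ Real.log X := by
      have h2 : ((Nat.log 4 g : ℕ) : ℝ) * Real.log 4 ≤ Real.log g := by
        rw [← Real.log_pow]
        apply Real.log_le_log (by positivity)
        exact_mod_cast Nat.pow_log_le_self 4 (by omega : g ≠ 0)
      have h3 : Real.log g ≤ Real.log X :=
        Real.log_le_log (by exact_mod_cast (show 0 < g by omega)) (by exact_mod_cast hgX)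
      have h4 : (1 : ℝ) ≤ Real.log 4 := by
        rw [Real.le_log_iff_exp_le (by norm_num)]
        linarith [Real.exp_one_lt_d9]
      have h5 : (0 : ℝ) ≤ ((Nat.log 4 g : ℕ) : ℝ) := Nat.cast_nonneg _
      nlinarith
    have h2 : ((8 + Nat.log 4 g : ℕ) : ℝ) < Y + 1 := by
      push_cast
      rw [pow_one] at hYp
      linarith
    have h3 : 8 + Nat.log 4 g < Y + 1 := by exact_mod_cast h2
    omega
  have e4 : (1 : ℝ) - 3 / 4 = 1 / 4 := by norm_num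
  have hj : ∀ j : ℕ, (((Ioc A (A + L)).filter (fun n : ℕ =>
        (∀ p ∈ Pr 8 Y, ¬ (p : ℤ) ∣ (n : ℤ) ^ 2 + a) ∧
        (∀ p ∈ Pr 8 Y, ¬ (p : ℤ) ∣ ((g * n + j : ℕ) : ℤ) ^ 2 + a))).card : ℝ) ≤
        C * L * ∏ p ∈ Pr 8 Y, fp a g j p := by
    intro j
    by_cases hb : ∃ p ∈ Pr 8 Y, p ∣ g ∧ (p : ℤ) ∣ (j : ℤ) ^ 2 + a
    · obtain ⟨p, hp, hpg, hpj⟩ := hb
      have h1 : (Ioc A (A + L)).filter (fun n : ℕ =>
        (∀ p ∈ Pr 8 Y, ¬ (p : ℤ) ∣ (n : ℤ) ^ 2 + a) ∧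
        (∀ p ∈ Pr 8 Y, ¬ (p : ℤ) ∣ ((g * n + j : ℕ) : ℤ) ^ 2 + a)) = ∅ := by
        rw [filter_eq_empty_iff]
        intro n _ h
        apply h.2 p hp
        have h4 : g * n + j ≡ j [MOD p] := by
          have : g * n ≡ 0 [MOD p] := (Nat.modEq_zero_iff_dvd).2 (Dvd.dvd.mul_right hpg n)
          simpa using Nat.ModEq.add_right j this
        exact (dvd_congr a h4).2 hpj
      rw [h1, card_empty, Nat.cast_zero]
      have : 0 ≤ ∏ p ∈ Pr 8 Y, fp a g j p := prod_nonneg fun p _ => fp_nonneg a g j p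
      positivity
    · have hb' : ∀ p ∈ Pr 8 Y, ¬ (p ∣ g ∧ (p : ℤ) ∣ (j : ℤ) ^ 2 + a) := fun p hp h => hb ⟨p, hp, h⟩
      have hSv : Sv 4 8 Y (Wp a g j) := fun p hp => ⟨Wp_card (Pr_prime hp) (hb' p hp), Wp_lt⟩
      have h1 := hup X hX1 (Wp a g j) hSv A L (by rw [e4]; exact hL)
      have h2 : (Ioc A (A + L)).filter (fun n : ℕ =>
        (∀ p ∈ Pr 8 Y, ¬ (p : ℤ) ∣ (n : ℤ) ^ 2 + a) ∧
        (∀ p ∈ Pr 8 Y, ¬ (p : ℤ) ∣ ((g * n + j : ℕ) : ℤ) ^ 2 + a)) =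
          (Ioc A (A + L)).filter (fun n => ∀ q ∈ Pr 8 Y, n % q ∉ Wp a g j q) := by
        apply filter_congr
        intro n _
        constructor
        · intro h p hp hm
          rcases (mem_Wp (Pr_prime hp).pos).1 hm with h3 | h3
          · exact h.1 p hp h3
          · exact h.2 p hp h3
        · intro h
          exact ⟨fun p hp hm => h p hp ((mem_Wp (Pr_prime hp).pos).2 (Or.inl hm)),
            fun p hp hm => h p hp ((mem_Wp (Pr_prime hp).pos).2 (Or.inr hm))⟩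
      rw [h2]
      exact h1
  have h3 := hV Y hY3
  have hVp : 0 ≤ VV (Zq a) 8 Y := by
    have hSv : Sv 2 8 Y (Zq a) := by
      intro p hp
      refine ⟨Zq_card a (Pr_prime hp), fun c hc => ?_⟩
      unfold Zq at hc
      exact mem_range.1 (mem_filter.1 hc).1
    exact (VV_pos (by norm_num) hSv).le
  have h4 : VV (Zq a) 8 Y ≤ C2 * 26 / Real.log X := by
    refine h3.trans ?_
    have h5 : 0 < 1 / ((13 : ℕ) : ℝ) / 2 * Real.log X := by positivity
    calc C2 / Real.log Y ≤ C2 / (1 / ((13 : ℕ) : ℝ) / 2 * Real.log X) := div_le_div_of_nonneg_left hC2.le h5 hYl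
      _ = C2 * 26 / Real.log X := by
          push_cast
          field_simp
          norm_num
  calc _ ≤ ∑ j ∈ range g, C * L * ∏ p ∈ Pr 8 Y, fp a g j p := sum_le_sum fun j _ => hj j
    _ = C * L * ∑ j ∈ range g, ∏ p ∈ Pr 8 Y, fp a g j p := by rw [mul_sum]
    _ ≤ C * L * (K * g * VV (Zq a) 8 Y ^ 2) := mul_le_mul_of_nonneg_left (hK g Y hg hgY) (by positivity)
    _ ≤ C * L * (K * g * (C2 * 26 / Real.log X) ^ 2) := by gcongr
    _ = _ := by
        rw [div_pow]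
        ring

theorem Rx_free {a : ℤ} {x n : ℕ} {y : ℝ} (h : Rx a x n) (hy : y < (x : ℝ) ^ (1 / 6 : ℝ)) (hy0 : 0 ≤ y) :
    ∀ p ∈ Pr 8 ⌊y⌋₊, ¬ (p : ℤ) ∣ (n : ℤ) ^ 2 + a := by
  intro p hp hd
  have h1 := h p (Pr_prime hp) hd
  have h2 : (p : ℝ) ≤ y := by
    have h3 := (Pr_mem.1 hp).1.2
    exact le_trans (by exact_mod_cast h3) (Nat.floor_le hy0)
  linarith

open Classical in
theorem singleR (a : ℤ) (ha : ¬ IsSquare (-a)) : ∃ C : ℝ, 0 < C ∧ ∃ x₀ : ℕ, ∀ x : ℕ, x₀ ≤ x →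
    ∀ A L : ℕ, (x : ℝ) ^ (1 / 4 : ℝ) ≤ L →
      (((Ioc A (A + L)).filter (Rx a x)).card : ℝ) ≤ C * L / Real.log x := by
  obtain ⟨C, hC, x0, h⟩ := single a ha 13 (by norm_num)
  refine ⟨C, hC, max x0 2, fun x hx A L hL => ?_⟩
  refine le_trans ?_ (h x (by omega) A L hL)
  have hx1 : (1 : ℝ) < x := by exact_mod_cast (show 1 < x by omega)
  apply Nat.cast_le.2
  apply card_le_card
  intro n hn
  rw [mem_filter] at hn ⊢
  refine ⟨hn.1, Rx_free hn.2 ?_ (by positivity)⟩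
  apply Real.rpow_lt_rpow_of_exponent_lt hx1
  norm_num

open Classical in
/-- the pairs of rough values at two scales `x` and `g x` -/
theorem pairR (a : ℤ) (ha : ¬ IsSquare (-a)) : ∃ C : ℝ, 0 < C ∧ ∃ x₀ : ℕ, ∀ x : ℕ, x₀ ≤ x →
    ∀ g : ℕ, 2 ≤ g → ∀ A L : ℕ, (x : ℝ) ^ (1 / 2 : ℝ) ≤ L →
      (((Ico (g * (A + 1)) (g * (A + L + 1))).filter (fun m => Rx a x (m / g) ∧ Rx a (g * x) m)).card : ℝ) ≤
        C * g * L / (Real.log x * Real.log ((g * x : ℕ) : ℝ)) := by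
  obtain ⟨C1, hC1, x1, h1⟩ := singleR a ha
  obtain ⟨C2, hC2, x2, h2⟩ := pairN a ha
  refine ⟨C1 * C1 + C2, by positivity, max (max x1 x2) 2, ?_⟩
  intro x hx g hg A L hL
  have hx1 : x1 ≤ x := by omega
  have hx2 : x2 ≤ x := by omega
  have hx3 : 2 ≤ x := by omega
  have hxX : x ≤ g * x := Nat.le_mul_of_pos_left x (by omega)
  have hgX : g ≤ g * x := Nat.le_mul_of_pos_right g (by omega)
  set X := g * x with hXdef
  have hxr : (1 : ℝ) < x := by exact_mod_cast (show 1 < x by omega)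
  have hXr : (1 : ℝ) < X := by exact_mod_cast (show 1 < X by omega)
  have hx0 : (0 : ℝ) < x := by linarith
  have hX0 : (0 : ℝ) < X := by linarith
  have hg0 : (0 : ℝ) < g := by exact_mod_cast (show 0 < g by omega)
  have hlx : 0 < Real.log x := Real.log_pos hxr
  have hlX : 0 < Real.log X := Real.log_pos hXr
  have hXeq : (X : ℝ) = g * x := by rw [hXdef]; push_cast; ring
  have hlxX : Real.log x ≤ Real.log X := Real.log_le_log hx0 (by exact_mod_cast hxX)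
  set S := (Ico (g * (A + 1)) (g * (A + L + 1))).filter (fun m => Rx a x (m / g) ∧ Rx a X m) with hS
  have hdiv : ∀ m ∈ S, m / g ∈ Ioc A (A + L) := by
    intro m hm
    rw [hS, mem_filter, mem_Ico] at hm
    rw [mem_Ioc]
    constructor
    · have : A + 1 ≤ m / g := (Nat.le_div_iff_mul_le (by omega)).2 (by rw [mul_comm]; exact hm.1.1)
      omega
    · have : m / g < A + L + 1 := (Nat.div_lt_iff_lt_mul (by omega)).2 (by rw [mul_comm]; exact hm.1.2)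
      omega
  rcases le_or_gt (g : ℝ) ((X : ℝ) ^ (1 / 2 : ℝ)) with hgs | hgl
  · -- near scales
    have hhalf : (X : ℝ) ^ (1 / 2 : ℝ) * (X : ℝ) ^ (1 / 2 : ℝ) = X := by
      rw [← Real.rpow_add hX0]
      norm_num
    have hxh : (X : ℝ) ^ (1 / 2 : ℝ) ≤ x := by
      have h3 : 0 < (X : ℝ) ^ (1 / 2 : ℝ) := by positivity
      have h4 : (X : ℝ) ^ (1 / 2 : ℝ) * (X : ℝ) ^ (1 / 2 : ℝ) ≤ (X : ℝ) ^ (1 / 2 : ℝ) * x := by
        rw [hhalf, hXeq]
        rw [hXeq] at hgs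
        exact mul_le_mul_of_nonneg_right hgs hx0.le
      exact le_of_mul_le_mul_left h4 h3
    have hL4 : (X : ℝ) ^ (1 / 4 : ℝ) ≤ L := by
      refine le_trans ?_ hL
      calc (X : ℝ) ^ (1 / 4 : ℝ) = ((X : ℝ) ^ (1 / 2 : ℝ)) ^ (1 / 2 : ℝ) := by
            rw [← Real.rpow_mul hX0.le]; norm_num
        _ ≤ (x : ℝ) ^ (1 / 2 : ℝ) := Real.rpow_le_rpow (by positivity) hxh (by norm_num)
    have hY : (X : ℝ) ^ (1 / ((13 : ℕ) : ℝ)) < (X : ℝ) ^ (1 / 12 : ℝ) := by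
      apply Real.rpow_lt_rpow_of_exponent_lt hXr
      norm_num
    have hY1 : (X : ℝ) ^ (1 / ((13 : ℕ) : ℝ)) < (x : ℝ) ^ (1 / 6 : ℝ) := by
      refine lt_of_lt_of_le hY ?_
      calc (X : ℝ) ^ (1 / 12 : ℝ) = ((X : ℝ) ^ (1 / 2 : ℝ)) ^ (1 / 6 : ℝ) := by
            rw [← Real.rpow_mul hX0.le]; norm_num
        _ ≤ (x : ℝ) ^ (1 / 6 : ℝ) := Real.rpow_le_rpow (by positivity) hxh (by norm_num)
    have hY2 : (X : ℝ) ^ (1 / ((13 : ℕ) : ℝ)) < (X : ℝ) ^ (1 / 6 : ℝ) := by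
      apply Real.rpow_lt_rpow_of_exponent_lt hXr
      norm_num
    have hcnt : S.card ≤ ∑ j ∈ range g, ((Ioc A (A + L)).filter (fun n : ℕ =>
        (∀ p ∈ Pr 8 ⌊(X : ℝ) ^ (1 / ((13 : ℕ) : ℝ))⌋₊, ¬ (p : ℤ) ∣ (n : ℤ) ^ 2 + a) ∧
        (∀ p ∈ Pr 8 ⌊(X : ℝ) ^ (1 / ((13 : ℕ) : ℝ))⌋₊, ¬ (p : ℤ) ∣ ((g * n + j : ℕ) : ℤ) ^ 2 + a))).card := by
      rw [card_eq_sum_card_fiberwise (f := fun m => m % g) (t := range g)
        (fun m _ => mem_coe.2 (mem_range.2 (Nat.mod_lt _ (by omega))))]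
      apply sum_le_sum
      intro j _
      apply card_le_card_of_injOn (fun m => m / g)
      · intro m hm
        rw [mem_coe, mem_filter] at hm
        rw [mem_coe, mem_filter]
        have h3 := hdiv m hm.1
        have h4 := hm.1
        rw [hS, mem_filter] at h4
        have h5 : g * (m / g) + j = m := by
          have := Nat.div_add_mod m g
          rw [hm.2] at this
          exact this
        refine ⟨h3, Rx_free h4.2.1 hY1 (by positivity), ?_⟩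
        show ∀ p ∈ Pr 8 ⌊(X : ℝ) ^ (1 / ((13 : ℕ) : ℝ))⌋₊, ¬ (p : ℤ) ∣ ((g * (m / g) + j : ℕ) : ℤ) ^ 2 + a
        rw [h5]
        exact Rx_free h4.2.2 hY2 (by positivity)
      · intro m hm m' hm' h
        rw [mem_coe, mem_filter] at hm hm'
        have h5 := Nat.div_add_mod m g
        have h6 := Nat.div_add_mod m' g
        have h7 : m / g = m' / g := h
        rw [← h5, ← h6, hm.2, hm'.2, h7]
    have h3 := h2 X (by omega) g hg hgX A L hL4
    have h4 : (S.card : ℝ) ≤ C2 * g * L / Real.log X ^ 2 := by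
      refine le_trans ?_ h3
      exact_mod_cast hcnt
    refine h4.trans ?_
    have h5 : C2 * g * L / Real.log X ^ 2 ≤ C2 * g * L / (Real.log x * Real.log X) := by
      apply div_le_div_of_nonneg_left (by positivity) (by positivity)
      rw [sq]
      exact mul_le_mul_of_nonneg_right hlxX hlX.le
    refine h5.trans ?_
    apply div_le_div_of_nonneg_right _ (by positivity)
    have : (0 : ℝ) ≤ C1 * C1 * g * L := by positivity
    nlinarith
  · -- far scales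
    have hg4 : (X : ℝ) ^ (1 / 4 : ℝ) ≤ g := by
      refine le_trans ?_ hgl.le
      apply Real.rpow_le_rpow_of_exponent_le hXr.le
      norm_num
    have hL4 : (x : ℝ) ^ (1 / 4 : ℝ) ≤ L := by
      refine le_trans ?_ hL
      apply Real.rpow_le_rpow_of_exponent_le hxr.le
      norm_num
    set T := (Ioc A (A + L)).filter (Rx a x) with hT
    have hTc : (T.card : ℝ) ≤ C1 * L / Real.log x := h1 x hx1 A L hL4
    have hmaps : ∀ m ∈ S, m / g ∈ T := by
      intro m hm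
      have h3 := hdiv m hm
      rw [hS, mem_filter] at hm
      exact mem_filter.2 ⟨h3, hm.2.1⟩
    have hcnt : (S.card : ℝ) ≤ ∑ n ∈ T, C1 * g / Real.log X := by
      rw [card_eq_sum_card_fiberwise (f := fun m => m / g) (t := T) hmaps]
      push_cast
      apply sum_le_sum
      intro n hn
      have hn1 : 1 ≤ n := by
        rw [hT, mem_filter, mem_Ioc] at hn
        omega
      have h3 := h1 X (by omega) (g * n - 1) g hg4
      refine le_trans ?_ h3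
      apply Nat.cast_le.2
      apply card_le_card
      intro m hm
      rw [mem_filter] at hm
      have h4 := hm.1
      rw [hS, mem_filter] at h4
      rw [mem_filter, mem_Ioc]
      refine ⟨?_, h4.2.2⟩
      have h5 := Nat.div_add_mod m g
      have h6 := Nat.mod_lt m (show 0 < g by omega)
      rw [hm.2] at h5
      have h7 : 1 ≤ g * n := Nat.mul_pos (by omega) (by omega)
      omega
    refine hcnt.trans ?_
    rw [sum_const, nsmul_eq_mul]
    calc (T.card : ℝ) * (C1 * g / Real.log X) ≤ (C1 * L / Real.log x) * (C1 * g / Real.log X) :=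
          mul_le_mul_of_nonneg_right hTc (by positivity)
      _ = C1 * C1 * g * L / (Real.log x * Real.log X) := by
          field_simp
      _ ≤ _ := by
          apply div_le_div_of_nonneg_right _ (by positivity)
          have : (0 : ℝ) ≤ C2 * g * L := by positivity
          nlinarith

end Pool.Agent.W5h22.QM
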