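import Pool.Agent.Y882.MG.Quad2
import Pool.Agent.W5h22.QM.D

/-!
# QM.A: the lower bound for almost primes `n ^ 2 + a` in almost all cells `[c H, (c + 1) H)`
-/

set_option autoImplicit false

namespace Pool.Agent.W5h22.QM

open Finset Filter
open Pool.Agent.Y882.SI (gset)

open Classical in
theorem finP3 (a : ℤ) (ha : ¬ IsSquare (-a)) :
    ∃ δ : ℝ, 0 < δ ∧ ∃ X0 : ℕ, ∀ X : ℕ, X0 ≤ X →
      (((Icc 1 X).filter (fun M => ((gset a 3 ((X : ℝ) ^ (29 / 160 : ℝ)) M ⌊(X : ℝ) ^ (3 / 5 : ℝ)⌋₊).card : ℝ) <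
        δ * (X : ℝ) ^ (3 / 5 : ℝ) / Real.log X)).card : ℝ) ≤ (X : ℝ) ^ (9 / 10 : ℝ) := by
  have hc := Pool.Agent.Y882.KW.cond_A (29 / 40) (8 / 9) (by norm_num) (by norm_num) (by norm_num)
  have h := Pool.Agent.Y882.MG.finAll a ha 3 (29 / 40) ((29 / 40) / 4) (24 / 25 * (29 / 40)) (8 / 9)
      (2001 / 1000) (by norm_num) (by norm_num) (by norm_num) (by norm_num) (by norm_num) (by norm_num)
      (by norm_num) (by norm_num) hc (by norm_num) (by norm_num) (3 / 5) (1 / 20) (by norm_num) (by norm_num)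
      (by norm_num)
  have e1 : ((29 : ℝ) / 40) / 4 = 29 / 160 := by norm_num
  have e2 : 2 * ((29 : ℝ) / 40) - 3 / 5 + 1 / 20 = 9 / 10 := by norm_num
  rw [e1, e2] at h
  exact h

open Classical in
/-- double counting: few bad short windows inside a long window, then the long window is good -/
theorem local_short (Q : ℕ → Prop) (N L H : ℕ) (B E : ℝ) (hLH : L ≤ H) (hB : 0 ≤ B)
    (hE : (((Icc N (N + (H - L))).filter (fun n => (((Ioc n (n + L)).filter Q).card : ℝ) < B)).card : ℝ) ≤ E) :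
    ((H : ℝ) - L - E) * B ≤ L * (((Ioc N (N + H)).filter Q).card : ℝ) := by
  set G := (Icc N (N + (H - L))).filter (fun n => ¬ (((Ioc n (n + L)).filter Q).card : ℝ) < B) with hG
  have h1 : (G.card : ℝ) * B ≤ ∑ n ∈ G, (((Ioc n (n + L)).filter Q).card : ℝ) := by
    rw [← nsmul_eq_mul]
    apply card_nsmul_le_sum
    intro n hn
    rw [hG, mem_filter] at hn
    exact not_lt.1 hn.2
  have h2 : ∑ n ∈ G, (((Ioc n (n + L)).filter Q).card : ℝ) ≤
      L * (((Ioc N (N + H)).filter Q).card : ℝ) := by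
    have h3 : ∑ n ∈ G, (((Ioc n (n + L)).filter Q).card) ≤
        ∑ m ∈ (Ioc N (N + H)).filter Q, (G.filter (fun n => m ∈ Ioc n (n + L))).card := by
      have e1 : ∀ n ∈ G, ((Ioc n (n + L)).filter Q).card =
          ∑ m ∈ (Ioc N (N + H)).filter Q, if m ∈ Ioc n (n + L) then 1 else 0 := by
        intro n hn
        rw [hG, mem_filter, mem_Icc] at hn
        rw [← card_filter]
        congr 1
        ext m
        simp only [mem_filter, mem_Ioc]
        constructor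
        · rintro ⟨⟨u1, u2⟩, u3⟩
          exact ⟨⟨⟨by omega, by omega⟩, u3⟩, u1, u2⟩
        · rintro ⟨⟨_, u3⟩, u1, u2⟩
          exact ⟨⟨u1, u2⟩, u3⟩
      rw [sum_congr rfl e1, sum_comm]
      apply sum_le_sum
      intro m _
      rw [← card_filter]
    have h4 : ∀ m ∈ (Ioc N (N + H)).filter Q, (G.filter (fun n => m ∈ Ioc n (n + L))).card ≤ L := by
      intro m _
      have e2 : G.filter (fun n => m ∈ Ioc n (n + L)) ⊆ Ico (m - L) m := by
        intro n hn
        rw [mem_filter, mem_Ioc] at hn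
        rw [mem_Ico]
        omega
      refine (card_le_card e2).trans ?_
      rw [Nat.card_Ico]
      omega
    have h5 := h3.trans (sum_le_card_nsmul _ _ _ h4)
    rw [smul_eq_mul] at h5
    have h6 : (∑ n ∈ G, (((Ioc n (n + L)).filter Q).card : ℝ)) ≤
        (((Ioc N (N + H)).filter Q).card : ℝ) * L := by exact_mod_cast h5
    linarith
  have h7 : (H : ℝ) - L - E ≤ G.card := by
    have h8 := card_filter_add_card_filter_not (s := Icc N (N + (H - L)))
      (p := fun n => (((Ioc n (n + L)).filter Q).card : ℝ) < B)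
    rw [Nat.card_Icc] at h8
    have h11 : (((Icc N (N + (H - L))).filter
        (fun n => (((Ioc n (n + L)).filter Q).card : ℝ) < B)).card : ℝ) + G.card =
        ((N + (H - L) + 1 - N : ℕ) : ℝ) := by
      exact_mod_cast h8
    have h12 : ((N + (H - L) + 1 - N : ℕ) : ℝ) = H - L + 1 := by
      have : N + (H - L) + 1 - N = H - L + 1 := by omega
      rw [this]
      push_cast [Nat.cast_sub hLH]
      ring
    linarith
  exact (mul_le_mul_of_nonneg_right h7 hB).trans (h1.trans h2)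

/-- `n ≥ 1` and `|n ^ 2 + a|` is a product of at most three primes, all at least `x ^ (1 / 6)` -/
def P3 (a : ℤ) (x n : ℕ) : Prop :=
  1 ≤ n ∧ ((n : ℤ) ^ 2 + a).natAbs.primeFactorsList.length ≤ 3 ∧ Rx a x n

open Classical in
/-- almost all cells have the expected order of magnitude -/
theorem cells (a : ℤ) (ha : ¬ IsSquare (-a)) : ∃ c₁ : ℝ, 0 < c₁ ∧ ∀ j : ℕ, ∃ x₀ : ℕ, ∀ x : ℕ, x₀ ≤ x →
    ∀ b H : ℕ, b * H = x → (x : ℝ) ^ (2 / 3 : ℝ) ≤ H →
      (((Ico (j * b) ((j + 1) * b)).filter (fun c => 1 ≤ c ∧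
        (((Ico (c * H) ((c + 1) * H)).filter (P3 a x)).card : ℝ) < c₁ * H / Real.log x)).card : ℝ) ≤
        b * (x : ℝ) ^ (-(1 / 20) : ℝ) := by
  obtain ⟨δ, hδ, X1, hF⟩ := finP3 a ha
  refine ⟨δ / 8, by positivity, ?_⟩
  intro j
  have ev1 : ∀ᶠ x : ℕ in atTop, 8 * ((j : ℝ) + 1) ^ (3 / 5 : ℝ) ≤ (x : ℝ) ^ (1 / 15 : ℝ) :=
    ((tendsto_rpow_atTop (by norm_num)).comp tendsto_natCast_atTop_atTop).eventually_ge_atTop _
  have ev2 : ∀ᶠ x : ℕ in atTop, 2 * ((j : ℝ) + 1) ^ (9 / 10 : ℝ) ≤ (x : ℝ) ^ (1 / 20 : ℝ) :=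
    ((tendsto_rpow_atTop (by norm_num)).comp tendsto_natCast_atTop_atTop).eventually_ge_atTop _
  obtain ⟨X2, hX2⟩ := eventually_atTop.1 (ev1.and ev2)
  refine ⟨max (max X1 X2) (j + 64), ?_⟩
  intro x hx b H hbH hH
  have hx1 : X1 ≤ x := by omega
  have hx2 : X2 ≤ x := by omega
  have hx3 : j + 64 ≤ x := by omega
  obtain ⟨g1, g2⟩ := hX2 x hx2
  have hxr : (64 : ℝ) ≤ x := by exact_mod_cast (show 64 ≤ x by omega)
  have hx0 : (0 : ℝ) < x := by linarith
  have hx1r : (1 : ℝ) ≤ x := by linarith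
  have hjx : (j : ℝ) + 1 ≤ x := by exact_mod_cast (show j + 1 ≤ x by omega)
  set X := (j + 1) * x with hXdef
  have hxX : x ≤ X := Nat.le_mul_of_pos_left x (by omega)
  have hXr : (X : ℝ) = ((j : ℝ) + 1) * x := by rw [hXdef]; push_cast; ring
  have hXx : (x : ℝ) ≤ X := by exact_mod_cast hxX
  have hX0 : (0 : ℝ) < X := by linarith
  have hX1r : (1 : ℝ) ≤ X := by linarith
  have hlx : 0 < Real.log x := Real.log_pos (by linarith)
  have hlX : 0 < Real.log X := Real.log_pos (by linarith)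
  have hlXx : Real.log X ≤ 2 * Real.log x := by
    rw [hXr, Real.log_mul (by positivity) (by positivity)]
    have : Real.log ((j : ℝ) + 1) ≤ Real.log x := Real.log_le_log (by positivity) hjx
    linarith
  have hj0 : (0 : ℝ) < (j : ℝ) + 1 := by positivity
  -- sizes
  have hL5 : (X : ℝ) ^ (3 / 5 : ℝ) ≤ H / 8 := by
    rw [hXr, Real.mul_rpow hj0.le hx0.le]
    have h1 : (x : ℝ) ^ (1 / 15 : ℝ) * (x : ℝ) ^ (3 / 5 : ℝ) = (x : ℝ) ^ (2 / 3 : ℝ) := by
      rw [← Real.rpow_add hx0]; norm_num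
    have h2 : 0 < (x : ℝ) ^ (3 / 5 : ℝ) := by positivity
    nlinarith
  have hH8 : (8 : ℝ) ≤ H := by
    refine le_trans ?_ hH
    calc (8 : ℝ) ≤ (64 : ℝ) ^ (2 / 3 : ℝ) := by
          rw [show (64 : ℝ) = 4 ^ (3 : ℝ) by norm_num, ← Real.rpow_mul (by norm_num)]
          norm_num
      _ ≤ (x : ℝ) ^ (2 / 3 : ℝ) := Real.rpow_le_rpow (by norm_num) hxr (by norm_num)
  have hH0 : 0 < H := by
    have : (0 : ℝ) < H := by linarith
    exact_mod_cast this
  have hb0 : 0 < b := by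
    rcases Nat.eq_zero_or_pos b with h | h
    · rw [h, zero_mul] at hbH
      omega
    · exact h
  set L := ⌊(X : ℝ) ^ (3 / 5 : ℝ)⌋₊ with hL
  have hLle : (L : ℝ) ≤ (X : ℝ) ^ (3 / 5 : ℝ) := Nat.floor_le (by positivity)
  have hX5 : (1 : ℝ) ≤ (X : ℝ) ^ (3 / 5 : ℝ) := Real.one_le_rpow hX1r (by norm_num)
  have hLH : L ≤ H - 1 := by
    have h1 : (L : ℝ) + 1 ≤ H := by linarith
    have h2 : L + 1 ≤ H := by exact_mod_cast h1
    omega
  set B := δ * (X : ℝ) ^ (3 / 5 : ℝ) / Real.log X with hB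
  have hB0 : 0 ≤ B := by positivity
  obtain ⟨Q, hQ⟩ : ∃ Q : ℕ → Prop, Q = fun n : ℕ => (((n : ℤ) ^ 2 + a).natAbs.primeFactorsList.length ≤ 3 ∧
    ∀ p : ℕ, p.Prime → (p : ℤ) ∣ (n : ℤ) ^ 2 + a → (X : ℝ) ^ (29 / 160 : ℝ) ≤ p) := ⟨_, rfl⟩
  have hQn : ∀ n : ℕ, Q n ↔ (((n : ℤ) ^ 2 + a).natAbs.primeFactorsList.length ≤ 3 ∧
    ∀ p : ℕ, p.Prime → (p : ℤ) ∣ (n : ℤ) ^ 2 + a → (X : ℝ) ^ (29 / 160 : ℝ) ≤ p) := by
    intro n
    rw [hQ]
  have e6 : ∀ n K : ℕ, gset a 3 ((X : ℝ) ^ (29 / 160 : ℝ)) n K = (Ioc n (n + K)).filter Q := by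
    intro n K
    ext m
    unfold gset
    rw [mem_filter, mem_filter, hQn]
  have hQP : ∀ n : ℕ, 1 ≤ n → Q n → P3 a x n := by
    intro n hn h
    rw [hQn] at h
    refine ⟨hn, h.1, fun p hp hd => le_trans ?_ (h.2 p hp hd)⟩
    calc (x : ℝ) ^ (1 / 6 : ℝ) ≤ (x : ℝ) ^ (29 / 160 : ℝ) :=
          Real.rpow_le_rpow_of_exponent_le hx1r (by norm_num)
      _ ≤ (X : ℝ) ^ (29 / 160 : ℝ) := Real.rpow_le_rpow hx0.le hXx (by norm_num)
  set Exc := (Icc 1 X).filter (fun n => (((Ioc n (n + L)).filter Q).card : ℝ) < B) with hExc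
  have hExcc : (Exc.card : ℝ) ≤ (X : ℝ) ^ (9 / 10 : ℝ) := by
    refine le_trans (le_of_eq ?_) (hF X (by omega))
    rw [hExc]
    congr 2
    apply filter_congr
    intro n _
    rw [e6]
  set Bad := (Ico (j * b) ((j + 1) * b)).filter (fun c => 1 ≤ c ∧
        (((Ico (c * H) ((c + 1) * H)).filter (P3 a x)).card : ℝ) < δ / 8 * H / Real.log x) with hBad
  -- a bad cell has many exceptions
  have hcell : ∀ c ∈ Bad, (H : ℝ) / 2 ≤ ((Exc.filter (fun n => n / H = c)).card : ℝ) := by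
    intro c hc
    rw [hBad, mem_filter, mem_Ico] at hc
    obtain ⟨⟨hc1, hc2⟩, hc3, hc4⟩ := hc
    by_contra hcon
    rw [not_le] at hcon
    have hcH : 1 ≤ c * H := Nat.mul_pos (by omega) hH0
    have hcX : (c + 1) * H ≤ X := by
      calc (c + 1) * H ≤ ((j + 1) * b) * H := Nat.mul_le_mul_right _ (by omega)
        _ = X := by rw [hXdef, ← hbH]; ring
    have hcH2 : (c + 1) * H = c * H + H := by ring
    have hE : (((Icc (c * H) (c * H + ((H - 1) - L))).filter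
        (fun n => (((Ioc n (n + L)).filter Q).card : ℝ) < B)).card : ℝ) ≤ (H : ℝ) / 2 := by
      refine le_trans ?_ hcon.le
      apply Nat.cast_le.2
      apply card_le_card
      intro n hn
      rw [mem_filter, mem_Icc] at hn
      rw [hExc, mem_filter, mem_filter, mem_Icc]
      refine ⟨⟨⟨by omega, by omega⟩, hn.2⟩, ?_⟩
      apply Nat.div_eq_of_lt_le
      · exact hn.1.1
      · rw [hcH2]
        omega
    have key := local_short Q (c * H) L (H - 1) B ((H : ℝ) / 2) hLH hB0 hE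
    have hH1 : ((H - 1 : ℕ) : ℝ) = H - 1 := by
      rw [Nat.cast_sub (by omega)]
      simp
    rw [hH1] at key
    have h5 : (H : ℝ) / 4 ≤ (H : ℝ) - 1 - L - H / 2 := by linarith
    have h6 := (mul_le_mul_of_nonneg_right h5 hB0).trans key
    have h7 : (L : ℝ) * (((Ioc (c * H) (c * H + (H - 1))).filter Q).card : ℝ) ≤
        (X : ℝ) ^ (3 / 5 : ℝ) * (((Ico (c * H) ((c + 1) * H)).filter (P3 a x)).card : ℝ) := by
      apply mul_le_mul hLle _ (Nat.cast_nonneg _) (by positivity)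
      apply Nat.cast_le.2
      apply card_le_card
      intro n hn
      rw [mem_filter, mem_Ioc] at hn
      rw [mem_filter, mem_Ico]
      exact ⟨⟨by omega, by omega⟩, hQP n (by omega) hn.2⟩
    have h8 : (H : ℝ) / 4 * B = (X : ℝ) ^ (3 / 5 : ℝ) * (δ / 4 * H / Real.log X) := by
      rw [hB]; ring
    have h9 := h6.trans h7
    rw [h8] at h9
    have h10 := le_of_mul_le_mul_left h9 (by positivity)
    have h11 : δ / 8 * H / Real.log x ≤ δ / 4 * H / Real.log X := by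
      rw [div_le_div_iff₀ hlx hlX]
      have : 0 ≤ δ * H := by positivity
      nlinarith
    linarith
  have hsum : (Bad.card : ℝ) * (H / 2) ≤ (X : ℝ) ^ (9 / 10 : ℝ) := by
    calc (Bad.card : ℝ) * (H / 2) = ∑ _c ∈ Bad, (H : ℝ) / 2 := by rw [sum_const, nsmul_eq_mul]
      _ ≤ ∑ c ∈ Bad, ((Exc.filter (fun n => n / H = c)).card : ℝ) := sum_le_sum hcell
      _ = ((Bad.biUnion (fun c => Exc.filter (fun n => n / H = c))).card : ℝ) := by
          rw [card_biUnion]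
          · push_cast
            rfl
          · intro c _ c' _ hcc
            show Disjoint (Exc.filter (fun n => n / H = c)) (Exc.filter (fun n => n / H = c'))
            rw [disjoint_left]
            intro n hn hn'
            rw [mem_filter] at hn hn'
            exact hcc (hn.2.symm.trans hn'.2)
      _ ≤ (Exc.card : ℝ) := by
          apply Nat.cast_le.2
          apply card_le_card
          intro n hn
          rw [mem_biUnion] at hn
          obtain ⟨c, _, hc⟩ := hn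
          exact (mem_filter.1 hc).1
      _ ≤ _ := hExcc
  have hHr : (0 : ℝ) < H := by linarith
  have hbHr : (b : ℝ) * H = x := by exact_mod_cast hbH
  have h1 : (X : ℝ) ^ (9 / 10 : ℝ) * 2 ≤ x * (x : ℝ) ^ (-(1 / 20) : ℝ) := by
    rw [hXr, Real.mul_rpow hj0.le hx0.le]
    have h2 : x * (x : ℝ) ^ (-(1 / 20) : ℝ) = (x : ℝ) ^ (1 / 20 : ℝ) * (x : ℝ) ^ (9 / 10 : ℝ) := by
      rw [← Real.rpow_add hx0]
      nth_rewrite 1 [← Real.rpow_one (x : ℝ)]
      rw [← Real.rpow_add hx0]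
      norm_num
    rw [h2]
    have h3 : 0 < (x : ℝ) ^ (9 / 10 : ℝ) := by positivity
    nlinarith
  have h2 : (Bad.card : ℝ) * H ≤ (b * (x : ℝ) ^ (-(1 / 20) : ℝ)) * H := by
    calc (Bad.card : ℝ) * H ≤ (X : ℝ) ^ (9 / 10 : ℝ) * 2 := by linarith
      _ ≤ x * (x : ℝ) ^ (-(1 / 20) : ℝ) := h1
      _ = (b * (x : ℝ) ^ (-(1 / 20) : ℝ)) * H := by rw [← hbHr]; ring
  exact le_of_mul_le_mul_right h2 hHr

end Pool.Agent.W5h22.QM
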