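import Pool.Agent.W5h22.CD.A
import Pool.Agent.Y882.SI.Quad

/-!
# QM.B: the classes `n ^ 2 + a ≡ 0` and the classes of the pairs `n`, `g n + j`
-/

set_option autoImplicit false

namespace Pool.Agent.W5h22.QM

open Finset Filter
open Pool.Agent.Y843.HS (Pr VV Sv EE one_le_EE VV_ge VV_split Pr_mem Pr_prime)

/-- the roots of `x ^ 2 + a` modulo `p` -/
def Zq (a : ℤ) (p : ℕ) : Finset ℕ := (range p).filter (fun x : ℕ => (p : ℤ) ∣ (x : ℤ) ^ 2 + a)

/-- the roots of `(g x + j) ^ 2 + a` modulo `p` -/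
def Zg (a : ℤ) (g j p : ℕ) : Finset ℕ :=
  (range p).filter (fun x : ℕ => (p : ℤ) ∣ ((g * x + j : ℕ) : ℤ) ^ 2 + a)

/-- the union of the two -/
def Wp (a : ℤ) (g j p : ℕ) : Finset ℕ :=
  (range p).filter (fun x : ℕ => (p : ℤ) ∣ (x : ℤ) ^ 2 + a ∨ (p : ℤ) ∣ ((g * x + j : ℕ) : ℤ) ^ 2 + a)

/-- the local factor of the pairs -/
noncomputable def fp (a : ℤ) (g j p : ℕ) : ℝ := 1 - ((Wp a g j p).card : ℝ) / p

theorem dvd_congr {p : ℕ} {m n : ℕ} (a : ℤ) (h : m ≡ n [MOD p]) :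
    (p : ℤ) ∣ (m : ℤ) ^ 2 + a ↔ (p : ℤ) ∣ (n : ℤ) ^ 2 + a := by
  have h1 : (p : ℤ) ∣ (n : ℤ) - m := (Nat.modEq_iff_dvd).1 h
  have h2 : (p : ℤ) ∣ ((n : ℤ) ^ 2 + a) - ((m : ℤ) ^ 2 + a) := by
    have : ((n : ℤ) ^ 2 + a) - ((m : ℤ) ^ 2 + a) = ((n : ℤ) - m) * (n + m) := by ring
    rw [this]
    exact Dvd.dvd.mul_right h1 _
  constructor
  · intro h3
    have h4 := dvd_add h2 h3
    rwa [show ((n : ℤ) ^ 2 + a) - ((m : ℤ) ^ 2 + a) + ((m : ℤ) ^ 2 + a) = (n : ℤ) ^ 2 + a by ring] at h4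
  · intro h3
    have h4 := dvd_sub h3 h2
    rwa [show ((n : ℤ) ^ 2 + a) - (((n : ℤ) ^ 2 + a) - ((m : ℤ) ^ 2 + a)) = (m : ℤ) ^ 2 + a by ring] at h4

theorem mod_dvd (a : ℤ) (p n : ℕ) : (p : ℤ) ∣ ((n % p : ℕ) : ℤ) ^ 2 + a ↔ (p : ℤ) ∣ (n : ℤ) ^ 2 + a :=
  dvd_congr a (Nat.mod_modEq n p)

theorem mem_Zq {a : ℤ} {p n : ℕ} (hp : 0 < p) : n % p ∈ Zq a p ↔ (p : ℤ) ∣ (n : ℤ) ^ 2 + a := by
  unfold Zq
  rw [mem_filter, mem_range, mod_dvd]
  exact ⟨fun h => h.2, fun h => ⟨Nat.mod_lt _ hp, h⟩⟩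

theorem gj_congr {g j p n : ℕ} : g * (n % p) + j ≡ g * n + j [MOD p] :=
  Nat.ModEq.add_right j (Nat.ModEq.mul_left g (Nat.mod_modEq n p))

theorem mem_Wp {a : ℤ} {g j p n : ℕ} (hp : 0 < p) :
    n % p ∈ Wp a g j p ↔ (p : ℤ) ∣ (n : ℤ) ^ 2 + a ∨ (p : ℤ) ∣ ((g * n + j : ℕ) : ℤ) ^ 2 + a := by
  unfold Wp
  rw [mem_filter, mem_range, mod_dvd, dvd_congr a gj_congr]
  exact ⟨fun h => h.2, fun h => ⟨Nat.mod_lt _ hp, h⟩⟩

theorem Zq_card (a : ℤ) {p : ℕ} (hp : p.Prime) : (Zq a p).card ≤ 2 := by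
  have h := Pool.Agent.Y882.SI.ro_quad_le a p hp
  rw [Pool.Agent.Y882.PX.ro_eq] at h
  refine le_trans (le_of_eq ?_) h
  unfold Zq
  congr 1
  apply filter_congr
  intro n _
  unfold Pool.Agent.Y882.SI.QF
  simp

theorem gj_inj {g j p x y : ℕ} (hp : p.Prime) (hg : ¬ p ∣ g) (hx : x < p) (hy : y < p)
    (h : (g * x + j) % p = (g * y + j) % p) : x = y := by
  have h1 : g * x + j ≡ g * y + j [MOD p] := h
  have h2 : g * x ≡ g * y [MOD p] := Nat.ModEq.add_right_cancel' j h1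
  have hc : Nat.gcd p g = 1 := (Nat.Prime.coprime_iff_not_dvd hp).2 hg
  have h3 : x ≡ y [MOD p] := Nat.ModEq.cancel_left_of_coprime hc h2
  have h4 : x % p = y % p := h3
  rwa [Nat.mod_eq_of_lt hx, Nat.mod_eq_of_lt hy] at h4

theorem Zg_card_le (a : ℤ) {g j p : ℕ} (hp : p.Prime) (hg : ¬ p ∣ g) :
    (Zg a g j p).card ≤ (Zq a p).card := by
  apply card_le_card_of_injOn (fun x => (g * x + j) % p)
  · intro x hx
    rw [mem_coe] at hx ⊢
    unfold Zg at hx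
    rw [mem_filter] at hx
    exact (mem_Zq hp.pos).2 hx.2
  · intro x hx y hy h
    rw [mem_coe] at hx hy
    unfold Zg at hx hy
    rw [mem_filter, mem_range] at hx hy
    exact gj_inj hp hg hx.1 hy.1 h

theorem Zg_card_ge (a : ℤ) {g j p : ℕ} (hp : p.Prime) (hg : ¬ p ∣ g) :
    (Zq a p).card ≤ (Zg a g j p).card := by
  classical
  have hsurj : ∀ y ∈ range p, ∃ x ∈ range p, (g * x + j) % p = y := by
    have h := Finset.surj_on_of_inj_on_of_card_le (s := range p) (t := range p)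
      (fun x _ => (g * x + j) % p) (fun x _ => mem_range.2 (Nat.mod_lt _ hp.pos))
      (fun x y hx hy h => gj_inj hp hg (mem_range.1 hx) (mem_range.1 hy) h) le_rfl
    intro y hy
    obtain ⟨x, hx, hxy⟩ := h y hy
    exact ⟨x, hx, hxy.symm⟩
  have hsub : Zq a p ⊆ (Zg a g j p).image (fun x => (g * x + j) % p) := by
    intro y hy
    unfold Zq at hy
    rw [mem_filter] at hy
    obtain ⟨x, hx, hxy⟩ := hsurj y hy.1
    rw [mem_image]
    refine ⟨x, ?_, hxy⟩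
    unfold Zg
    rw [mem_filter]
    refine ⟨hx, ?_⟩
    rw [← mod_dvd, hxy]
    exact hy.2
  exact (card_le_card hsub).trans card_image_le

theorem Wp_eq (a : ℤ) (g j p : ℕ) : Wp a g j p = Zq a p ∪ Zg a g j p := by
  unfold Wp Zq Zg
  rw [filter_or]

theorem Wp_lt {a : ℤ} {g j p : ℕ} : ∀ c ∈ Wp a g j p, c < p := by
  intro c hc
  unfold Wp at hc
  rw [mem_filter, mem_range] at hc
  exact hc.1

theorem Wp_card {a : ℤ} {g j p : ℕ} (hp : p.Prime) (h : ¬ (p ∣ g ∧ (p : ℤ) ∣ (j : ℤ) ^ 2 + a)) :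
    (Wp a g j p).card ≤ 4 := by
  by_cases hg : p ∣ g
  · have h1 : ¬ (p : ℤ) ∣ (j : ℤ) ^ 2 + a := fun h2 => h ⟨hg, h2⟩
    have h2 : Wp a g j p ⊆ Zq a p := by
      intro x hx
      unfold Wp at hx
      rw [mem_filter] at hx
      unfold Zq
      rw [mem_filter]
      refine ⟨hx.1, ?_⟩
      rcases hx.2 with h3 | h3
      · exact h3
      · exfalso
        apply h1
        have h4 : g * x + j ≡ j [MOD p] := by
          have : g * x ≡ 0 [MOD p] := (Nat.modEq_zero_iff_dvd).2 (Dvd.dvd.mul_right hg x)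
          simpa using Nat.ModEq.add_right j this
        exact (dvd_congr a h4).1 h3
    exact (card_le_card h2).trans ((Zq_card a hp).trans (by norm_num))
  · rw [Wp_eq]
    have h1 := card_union_le (Zq a p) (Zg a g j p)
    have h2 := Zg_card_le a (j := j) hp hg
    have h3 := Zq_card a hp
    omega

theorem fp_nonneg (a : ℤ) (g j p : ℕ) : 0 ≤ fp a g j p := by
  unfold fp
  have h1 : (Wp a g j p).card ≤ p := by
    have := card_le_card (filter_subset (fun x : ℕ => (p : ℤ) ∣ (x : ℤ) ^ 2 + a ∨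
      (p : ℤ) ∣ ((g * x + j : ℕ) : ℤ) ^ 2 + a) (range p))
    rw [card_range] at this
    exact this
  rcases Nat.eq_zero_or_pos p with h0 | h0
  · subst h0
    simp
  · have hp : (0 : ℝ) < p := by exact_mod_cast h0
    have h2 : ((Wp a g j p).card : ℝ) ≤ p := by exact_mod_cast h1
    have h3 : ((Wp a g j p).card : ℝ) / p ≤ 1 := by
      rw [div_le_one hp]
      exact h2
    linarith

theorem fp_le_one (a : ℤ) (g j : ℕ) {p : ℕ} : fp a g j p ≤ 1 - ((Zq a p).card : ℝ) / p := by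
  unfold fp
  have h1 : (Zq a p).card ≤ (Wp a g j p).card := by
    rw [Wp_eq]
    exact card_le_card subset_union_left
  have h2 : ((Zq a p).card : ℝ) ≤ (Wp a g j p).card := by exact_mod_cast h1
  have h3 : ((Zq a p).card : ℝ) / p ≤ ((Wp a g j p).card : ℝ) / p :=
    div_le_div_of_nonneg_right h2 (Nat.cast_nonneg _)
  linarith

/-- the integer whose prime factors are the exceptional primes of the pair -/
def Rj (a : ℤ) (g j : ℕ) : ℤ :=
  (g : ℤ) * (((j : ℤ) ^ 2 + a * ((g : ℤ) - 1) ^ 2) * ((j : ℤ) ^ 2 + a * ((g : ℤ) + 1) ^ 2))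

theorem Wp_big {a : ℤ} {g j p : ℕ} (hp : p.Prime) (h : ¬ (p : ℤ) ∣ Rj a g j) :
    2 * (Zq a p).card ≤ (Wp a g j p).card := by
  have hg : ¬ p ∣ g := by
    intro h1
    apply h
    unfold Rj
    exact Dvd.dvd.mul_right (Int.natCast_dvd_natCast.2 h1) _
  have hd : Disjoint (Zq a p) (Zg a g j p) := by
    rw [disjoint_left]
    intro x hx hx2
    unfold Zq at hx
    unfold Zg at hx2
    rw [mem_filter] at hx hx2
    apply h
    have h1 := hx.2
    have h2 := hx2.2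
    push_cast at h2
    have h3 : (p : ℤ) ∣ (((g : ℤ) - 1) * x + j) * (((g : ℤ) + 1) * x + j) := by
      have e : (((g : ℤ) - 1) * x + j) * (((g : ℤ) + 1) * x + j) =
          (((g : ℤ) * x + j) ^ 2 + a) - ((x : ℤ) ^ 2 + a) := by ring
      rw [e]
      exact dvd_sub h2 h1
    have hpp : Prime (p : ℤ) := Nat.prime_iff_prime_int.1 hp
    unfold Rj
    apply Dvd.dvd.mul_left
    rcases hpp.dvd_or_dvd h3 with h4 | h4
    · apply Dvd.dvd.mul_right
      have e : (j : ℤ) ^ 2 + a * ((g : ℤ) - 1) ^ 2 =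
          ((g : ℤ) - 1) ^ 2 * ((x : ℤ) ^ 2 + a) - (((g : ℤ) - 1) * x + j) * (((g : ℤ) - 1) * x - j) := by ring
      rw [e]
      exact dvd_sub (Dvd.dvd.mul_left h1 _) (Dvd.dvd.mul_right h4 _)
    · apply Dvd.dvd.mul_left
      have e : (j : ℤ) ^ 2 + a * ((g : ℤ) + 1) ^ 2 =
          ((g : ℤ) + 1) ^ 2 * ((x : ℤ) ^ 2 + a) - (((g : ℤ) + 1) * x + j) * (((g : ℤ) + 1) * x - j) := by ring
      rw [e]
      exact dvd_sub (Dvd.dvd.mul_left h1 _) (Dvd.dvd.mul_right h4 _)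
  rw [Wp_eq, card_union_of_disjoint hd]
  have := Zg_card_ge a (j := j) hp hg
  omega

theorem Rj_ne {a : ℤ} (ha : ¬ IsSquare (-a)) {g j : ℕ} (hg : 2 ≤ g) : Rj a g j ≠ 0 := by
  have key : ∀ c : ℤ, c ≠ 0 → (j : ℤ) ^ 2 + a * c ^ 2 ≠ 0 := by
    intro c hc h
    apply ha
    have h1 : (j : ℤ) ^ 2 = (-a) * c ^ 2 := by linarith
    have h2 : c ^ 2 ∣ (j : ℤ) ^ 2 := ⟨-a, by rw [h1]; ring⟩
    have h3 : c ∣ (j : ℤ) := (Int.pow_dvd_pow_iff (by norm_num)).1 h2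
    obtain ⟨d, hd⟩ := h3
    refine ⟨d, ?_⟩
    have h4 : c ^ 2 * (d * d) = c ^ 2 * (-a) := by
      rw [hd] at h1
      linarith
    have h5 : c ^ 2 ≠ 0 := pow_ne_zero 2 hc
    exact (mul_left_cancel₀ h5 h4).symm
  unfold Rj
  have hg' : (2 : ℤ) ≤ g := by exact_mod_cast hg
  apply mul_ne_zero (by omega)
  exact mul_ne_zero (key _ (by omega)) (key _ (by omega))

/-- the product over the roots -/
theorem VV_up (a : ℤ) (ha : ¬ IsSquare (-a)) (z : ℕ) (hz : 4 ≤ z) : ∃ C : ℝ, 0 < C ∧ ∀ Y : ℕ, 3 ≤ Y →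
    VV (Zq a) z Y ≤ C / Real.log Y := by
  classical
  obtain ⟨C, hC0, hC⟩ := Pool.Agent.H474R2.GE.mertens_rho (Pool.Agent.Y882.SI.QF a)
    (Pool.Agent.Y882.SI.QF_irred a ha) (by
    have hd : (Pool.Agent.Y882.SI.QF a).natDegree = 2 := by
      unfold Pool.Agent.Y882.SI.QF
      exact Polynomial.natDegree_X_pow_add_C
    omega)
  set S : ℝ := ∑ p ∈ (Icc 1 z).filter Nat.Prime, ((Zq a p).card : ℝ) / p with hS
  refine ⟨Real.exp (C + S), Real.exp_pos _, fun Y hY => ?_⟩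
  have hYr : (3 : ℝ) ≤ Y := by exact_mod_cast hY
  have h1 := (abs_le.1 (hC Y hYr)).1
  have hrho : ∀ p : ℕ, Pool.Agent.H474R2.PG.rho (Pool.Agent.Y882.SI.QF a) p = (Zq a p).card := by
    intro p
    unfold Pool.Agent.H474R2.PG.rho Zq
    congr 1
    apply filter_congr
    intro n _
    unfold Pool.Agent.Y882.SI.QF
    simp
  have hPR : Pool.Agent.H474R2.PG.PR (Y : ℝ) = (Icc 1 Y).filter Nat.Prime := by
    unfold Pool.Agent.H474R2.PG.PR
    rw [Nat.floor_natCast]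
  have hlY : 0 < Real.log Y := Real.log_pos (by linarith)
  have h2 : Real.log (Real.log Y) - C ≤ ∑ p ∈ (Icc 1 Y).filter Nat.Prime, ((Zq a p).card : ℝ) / p := by
    unfold Pool.Agent.H474R2.PG.Sg at h1
    rw [hPR] at h1
    simp_rw [hrho] at h1
    linarith
  have h3 : ∑ p ∈ (Icc 1 Y).filter Nat.Prime, ((Zq a p).card : ℝ) / p ≤
      S + ∑ p ∈ Pr z Y, ((Zq a p).card : ℝ) / p := by
    have hsub : (Icc 1 Y).filter Nat.Prime ⊆ (Icc 1 z).filter Nat.Prime ∪ Pr z Y := by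
      intro p hp
      rw [mem_filter, mem_Icc] at hp
      rw [mem_union, mem_filter, mem_Icc, Pr_mem]
      rcases le_or_gt p z with h | h
      · exact Or.inl ⟨⟨hp.1.1, h⟩, hp.2⟩
      · exact Or.inr ⟨⟨h, hp.1.2⟩, hp.2⟩
    have hnn : ∀ p : ℕ, (0 : ℝ) ≤ ((Zq a p).card : ℝ) / p := fun p => by positivity
    refine (sum_le_sum_of_subset_of_nonneg hsub (fun p _ _ => hnn p)).trans ?_
    have h4 : Disjoint ((Icc 1 z).filter Nat.Prime) (Pr z Y) := by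
      rw [disjoint_left]
      intro p hp hp2
      rw [mem_filter, mem_Icc] at hp
      have := (Pr_mem.1 hp2).1.1
      omega
    rw [sum_union h4]
  have h5 : VV (Zq a) z Y ≤ Real.exp (-∑ p ∈ Pr z Y, ((Zq a p).card : ℝ) / p) := by
    unfold VV
    rw [← sum_neg_distrib, Real.exp_sum]
    apply Finset.prod_le_prod
    · intro p hp
      have hpp := Pr_prime hp
      have hp4 : z < p := (Pr_mem.1 hp).1.1
      have hp0 : (0 : ℝ) < p := by exact_mod_cast hpp.pos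
      have h6 : ((Zq a p).card : ℝ) ≤ 2 := by exact_mod_cast Zq_card a hpp
      have h7 : (4 : ℝ) ≤ p := by exact_mod_cast (show 4 ≤ p by omega)
      have h8 : ((Zq a p).card : ℝ) / p ≤ 1 := by
        rw [div_le_one hp0]
        linarith
      linarith
    · intro p _
      have := Real.add_one_le_exp (-(((Zq a p).card : ℝ) / p))
      linarith
  refine h5.trans ?_
  calc Real.exp (-∑ p ∈ Pr z Y, ((Zq a p).card : ℝ) / p) ≤ Real.exp (C + S - Real.log (Real.log Y)) := by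
        apply Real.exp_le_exp.2
        linarith
    _ = Real.exp (C + S) / Real.log Y := by rw [Real.exp_sub, Real.exp_log hlY]

end Pool.Agent.W5h22.QM
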