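import Pool.Agent.W5h22.QM.B

/-!
# QM.C: the average over `j` of the local factors of the pairs `n`, `g n + j`
-/

set_option autoImplicit false

namespace Pool.Agent.W5h22.QM

open Finset Filter
open Pool.Agent.Y843.HS (Pr VV Sv EE one_le_EE VV_ge VV_split Pr_mem Pr_prime card_res card_shift)

theorem Wp_periodic {a : ℤ} {g j k p : ℕ} (h : j ≡ k [MOD p]) : Wp a g j p = Wp a g k p := by
  unfold Wp
  apply filter_congr
  intro x _
  rw [dvd_congr a (Nat.ModEq.add_left (g * x) h)]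

theorem fp_periodic {a : ℤ} {g j k p : ℕ} (h : j ≡ k [MOD p]) : fp a g j p = fp a g k p := by
  unfold fp
  rw [Wp_periodic h]

theorem avgM (a : ℤ) (g : ℕ) (P : Finset ℕ) (hP : ∀ p ∈ P, p.Prime) :
    ∑ j ∈ range (∏ p ∈ P, p), ∏ p ∈ P, fp a g j p ≤
      ((∏ p ∈ P, p : ℕ) : ℝ) * (∏ p ∈ P, (1 - ((Zq a p).card : ℝ) / p)) ^ 2 := by
  classical
  set M := ∏ p ∈ P, p with hM
  have hM0 : 0 < M := prod_pos fun p hp => (hP p hp).pos
  have hMr : (0 : ℝ) < M := by exact_mod_cast hM0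
  set RS := (range M).filter (fun y => ∀ p ∈ P, y % p ∈ (range p).filter (fun c => c ∉ Zq a p)) with hRS
  have hRSc : (RS.card : ℝ) = M * ∏ p ∈ P, (1 - ((Zq a p).card : ℝ) / p) := by
    have h1 := card_res P hP (fun p => (range p).filter (fun c => c ∉ Zq a p))
      (fun p _ c hc => mem_range.1 (mem_filter.1 hc).1)
    rw [← hM, ← hRS] at h1
    rw [h1, hM]
    push_cast
    rw [← prod_mul_distrib]
    apply prod_congr rfl
    intro p hp
    have hp0 : (0 : ℝ) < p := by exact_mod_cast (hP p hp).pos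
    have h2 : ((range p).filter (fun c => c ∉ Zq a p)).card + (Zq a p).card = p := by
      have h3 : Zq a p = (range p).filter (fun c => c ∈ Zq a p) := by
        ext c
        rw [mem_filter]
        refine ⟨fun h => ⟨(mem_filter.1 h).1, h⟩, fun h => h.2⟩
      have h4 := card_filter_add_card_filter_not (s := range p) (fun c => c ∈ Zq a p)
      rw [← h3, card_range] at h4
      omega
    have h5 : (((range p).filter (fun c => c ∉ Zq a p)).card : ℝ) = p - (Zq a p).card := by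
      rw [eq_sub_iff_add_eq]
      exact_mod_cast h2
    rw [h5]
    field_simp
  have hj : ∀ j : ℕ, ∏ p ∈ P, fp a g j p =
      (((range M).filter (fun x => ∀ p ∈ P, x % p ∈ (range p).filter (fun c => c ∉ Wp a g j p))).card : ℝ) / M := by
    intro j
    have h1 := card_res P hP (fun p => (range p).filter (fun c => c ∉ Wp a g j p))
      (fun p _ c hc => mem_range.1 (mem_filter.1 hc).1)
    rw [← hM] at h1
    rw [h1, hM]
    push_cast
    rw [← prod_div_distrib]
    apply prod_congr rfl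
    intro p hp
    have hp0 : (0 : ℝ) < p := by exact_mod_cast (hP p hp).pos
    have h2 : ((range p).filter (fun c => c ∉ Wp a g j p)).card + (Wp a g j p).card = p := by
      have h3 : Wp a g j p = (range p).filter (fun c => c ∈ Wp a g j p) := by
        ext c
        rw [mem_filter]
        refine ⟨fun h => ⟨(mem_filter.1 h).1, h⟩, fun h => h.2⟩
      have h4 := card_filter_add_card_filter_not (s := range p) (fun c => c ∈ Wp a g j p)
      rw [← h3, card_range] at h4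
      omega
    have h5 : (((range p).filter (fun c => c ∉ Wp a g j p)).card : ℝ) = p - (Wp a g j p).card := by
      rw [eq_sub_iff_add_eq]
      exact_mod_cast h2
    rw [h5]
    unfold fp
    field_simp
  have hcond : ∀ j x : ℕ, (∀ p ∈ P, x % p ∈ (range p).filter (fun c => c ∉ Wp a g j p)) ↔
      (∀ p ∈ P, x % p ∈ (range p).filter (fun c => c ∉ Zq a p)) ∧ (j + g * x) % M ∈ RS := by
    intro j x
    rw [hRS, mem_filter, mem_range]
    constructor
    · intro h
      refine ⟨fun p hp => ?_, Nat.mod_lt _ hM0, fun p hp => ?_⟩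
      · have h1 := h p hp
        rw [mem_filter, mem_range, mem_Wp (hP p hp).pos] at h1
        rw [mem_filter, mem_range, mem_Zq (hP p hp).pos]
        exact ⟨h1.1, fun h2 => h1.2 (Or.inl h2)⟩
      · have h1 := h p hp
        rw [mem_filter, mem_range, mem_Wp (hP p hp).pos] at h1
        rw [Nat.mod_mod_of_dvd _ (hM ▸ dvd_prod_of_mem _ hp), mem_filter, mem_range, mem_Zq (hP p hp).pos]
        refine ⟨Nat.mod_lt _ (hP p hp).pos, fun h2 => h1.2 (Or.inr ?_)⟩
        rwa [add_comm j (g * x)] at h2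
    · rintro ⟨h1, _, h3⟩ p hp
      have h4 := h1 p hp
      have h5 := h3 p hp
      rw [Nat.mod_mod_of_dvd _ (hM ▸ dvd_prod_of_mem _ hp), mem_filter, mem_range, mem_Zq (hP p hp).pos] at h5
      rw [mem_filter, mem_range, mem_Zq (hP p hp).pos] at h4
      rw [mem_filter, mem_range, mem_Wp (hP p hp).pos]
      refine ⟨h4.1, ?_⟩
      rintro (h6 | h6)
      · exact h4.2 h6
      · apply h5.2
        rwa [add_comm j (g * x)]
  have hsum : ∑ j ∈ range M, ((range M).filter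
      (fun x => ∀ p ∈ P, x % p ∈ (range p).filter (fun c => c ∉ Wp a g j p))).card ≤ RS.card * RS.card := by
    have h1 : ∑ j ∈ range M, ((range M).filter
      (fun x => ∀ p ∈ P, x % p ∈ (range p).filter (fun c => c ∉ Wp a g j p))).card =
        ∑ x ∈ RS, ((range M).filter (fun j => (j + g * x) % M ∈ RS)).card := by
      simp_rw [card_filter]
      rw [sum_comm]
      have h2 : ∀ x ∈ range M, (∑ j ∈ range M,
          if (∀ p ∈ P, x % p ∈ (range p).filter (fun c => c ∉ Wp a g j p)) then 1 else 0) =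
          if x ∈ RS then (∑ j ∈ range M, if (j + g * x) % M ∈ RS then 1 else 0) else 0 := by
        intro x hx
        by_cases hxR : x ∈ RS
        · rw [if_pos hxR]
          apply sum_congr rfl
          intro j _
          have h3 : ∀ p ∈ P, x % p ∈ (range p).filter (fun c => c ∉ Zq a p) := (mem_filter.1 hxR).2
          by_cases h4 : (j + g * x) % M ∈ RS
          · rw [if_pos h4, if_pos ((hcond j x).2 ⟨h3, h4⟩)]
          · rw [if_neg h4, if_neg (fun h => h4 ((hcond j x).1 h).2)]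
        · rw [if_neg hxR]
          apply sum_eq_zero
          intro j _
          rw [if_neg]
          intro h
          exact hxR (mem_filter.2 ⟨hx, ((hcond j x).1 h).1⟩)
      rw [sum_congr rfl h2, ← sum_filter]
      apply sum_congr _ (fun _ _ => rfl)
      ext x
      rw [mem_filter]
      exact ⟨fun h => h.2, fun h => ⟨(mem_filter.1 h).1, h⟩⟩
    rw [h1]
    calc ∑ x ∈ RS, ((range M).filter (fun j => (j + g * x) % M ∈ RS)).card ≤ ∑ _x ∈ RS, RS.card :=
          sum_le_sum fun x _ => card_shift M (g * x) RS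
      _ = RS.card * RS.card := by rw [sum_const, smul_eq_mul]
  have hsumr : ∑ j ∈ range M, (((range M).filter
      (fun x => ∀ p ∈ P, x % p ∈ (range p).filter (fun c => c ∉ Wp a g j p))).card : ℝ) ≤
        (RS.card : ℝ) * RS.card := by
    exact_mod_cast hsum
  simp_rw [hj]
  rw [← sum_div, div_le_iff₀ hMr]
  refine hsumr.trans (le_of_eq ?_)
  rw [hRSc]
  ring

theorem sum_periodic (F : ℕ → ℝ) (M : ℕ) (hF : ∀ j, F (j + M) = F j) (q : ℕ) :
    ∑ j ∈ range (q * M), F j = q * ∑ j ∈ range M, F j := by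
  have hq : ∀ q j : ℕ, F (q * M + j) = F j := by
    intro q
    induction q with
    | zero => intro j; rw [zero_mul, zero_add]
    | succ q ih =>
      intro j
      rw [show (q + 1) * M + j = (q * M + j) + M by ring, hF, ih]
  induction q with
  | zero => simp
  | succ q ih =>
    rw [show (q + 1) * M = q * M + M by ring, sum_range_add, ih]
    have : ∑ x ∈ range M, F (q * M + x) = ∑ x ∈ range M, F x := sum_congr rfl fun x _ => hq q x
    rw [this]
    push_cast
    ring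

theorem avgG (a : ℤ) (g : ℕ) (P : Finset ℕ) (hP : ∀ p ∈ P, p.Prime) :
    ∑ j ∈ range g, ∏ p ∈ P, fp a g j p ≤
      ((g : ℝ) + (∏ p ∈ P, p : ℕ)) * (∏ p ∈ P, (1 - ((Zq a p).card : ℝ) / p)) ^ 2 := by
  classical
  set M := ∏ p ∈ P, p with hM
  have hM0 : 0 < M := prod_pos fun p hp => (hP p hp).pos
  have hMr : (0 : ℝ) < M := by exact_mod_cast hM0
  have h1 : ∀ j, ∏ p ∈ P, fp a g (j + M) p = ∏ p ∈ P, fp a g j p := by
    intro j
    apply prod_congr rfl
    intro p hp
    apply fp_periodic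
    have h2 : M ≡ 0 [MOD p] := (Nat.modEq_zero_iff_dvd).2 (hM ▸ dvd_prod_of_mem _ hp)
    simpa using Nat.ModEq.add_left j h2
  have h2 := sum_periodic (fun j => ∏ p ∈ P, fp a g j p) M h1 (g / M + 1)
  have h3 : range g ⊆ range ((g / M + 1) * M) := by
    apply range_subset_range.2
    have := Nat.lt_div_mul_add (a := g) hM0
    have h4 : (g / M + 1) * M = g / M * M + M := by ring
    omega
  have h0 : ∀ j : ℕ, 0 ≤ ∏ p ∈ P, fp a g j p := fun j => prod_nonneg fun p _ => fp_nonneg a g j p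
  have h4 : ∑ j ∈ range g, ∏ p ∈ P, fp a g j p ≤ ∑ j ∈ range ((g / M + 1) * M), ∏ p ∈ P, fp a g j p :=
    sum_le_sum_of_subset_of_nonneg h3 fun j _ _ => h0 j
  refine h4.trans ?_
  rw [h2]
  have h5 := avgM a g P hP
  rw [← hM] at h5
  have h6 : (((g / M + 1 : ℕ) : ℝ)) * M ≤ g + M := by
    have : (g / M + 1) * M ≤ g + M := by
      have := Nat.div_mul_le_self g M
      have h4 : (g / M + 1) * M = g / M * M + M := by ring
      omega
    exact_mod_cast this
  calc (((g / M + 1 : ℕ) : ℝ)) * ∑ j ∈ range M, ∏ p ∈ P, fp a g j p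
      ≤ (((g / M + 1 : ℕ) : ℝ)) * (M * (∏ p ∈ P, (1 - ((Zq a p).card : ℝ) / p)) ^ 2) :=
        mul_le_mul_of_nonneg_left h5 (Nat.cast_nonneg _)
    _ = ((((g / M + 1 : ℕ) : ℝ)) * M) * (∏ p ∈ P, (1 - ((Zq a p).card : ℝ) / p)) ^ 2 := by ring
    _ ≤ _ := mul_le_mul_of_nonneg_right h6 (by positivity)

theorem log_two_pos : (0 : ℝ) < Real.log 2 := Real.log_pos (by norm_num)

/-- the large primes -/
theorem bigP (a : ℤ) (ha : ¬ IsSquare (-a)) : ∃ K : ℝ, 1 ≤ K ∧ ∀ g j Y : ℕ, 2 ≤ g → j < g →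
    ∏ p ∈ Pr (8 + Nat.log 4 g) Y, fp a g j p ≤ K * VV (Zq a) (8 + Nat.log 4 g) Y ^ 2 := by
  classical
  set A : ℝ := 2 * Real.log (1 + 4 * |(a : ℝ)|) / Real.log 2 + 10 with hA
  have hl2 := log_two_pos
  have hA0 : 0 ≤ A := by
    have : 0 ≤ Real.log (1 + 4 * |(a : ℝ)|) := Real.log_nonneg (by linarith [abs_nonneg (a : ℝ)])
    positivity
  refine ⟨Real.exp (4 * A), Real.one_le_exp (by positivity), ?_⟩
  intro g j Y hg hj
  set L := 8 + Nat.log 4 g with hL
  have hL8 : 8 ≤ L := by omega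
  have hLr : (8 : ℝ) ≤ L := by exact_mod_cast hL8
  have hR := Rj_ne (j := j) ha hg
  set Bad := (Pr L Y).filter (fun p : ℕ => (p : ℤ) ∣ Rj a g j) with hBad
  have hgr : (2 : ℝ) ≤ g := by exact_mod_cast hg
  have hjr : (j : ℝ) ≤ g := by exact_mod_cast hj.le
  -- the size of `Rj`
  have hRabs : |((Rj a g j : ℤ) : ℝ)| ≤ (1 + 4 * |(a : ℝ)|) ^ 2 * (g : ℝ) ^ 5 := by
    have hj0 : (0 : ℝ) ≤ j := Nat.cast_nonneg _
    have ha0 := abs_nonneg (a : ℝ)
    have hj2 : (j : ℝ) ^ 2 ≤ (g : ℝ) ^ 2 := pow_le_pow_left₀ hj0 hjr 2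
    have key : ∀ c : ℝ, c ^ 2 ≤ 4 * (g : ℝ) ^ 2 →
        |(j : ℝ) ^ 2 + a * c ^ 2| ≤ (1 + 4 * |(a : ℝ)|) * (g : ℝ) ^ 2 := by
      intro c hc
      calc |(j : ℝ) ^ 2 + a * c ^ 2| ≤ |(j : ℝ) ^ 2| + |a * c ^ 2| := abs_add_le _ _
        _ = (j : ℝ) ^ 2 + |(a : ℝ)| * c ^ 2 := by
            rw [abs_mul, abs_of_nonneg (sq_nonneg (j : ℝ)), abs_of_nonneg (sq_nonneg c)]
        _ ≤ (g : ℝ) ^ 2 + |(a : ℝ)| * (4 * (g : ℝ) ^ 2) := by gcongr
        _ = _ := by ring
    have k1 := key ((g : ℝ) - 1) (by nlinarith)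
    have k2 := key ((g : ℝ) + 1) (by nlinarith)
    unfold Rj
    push_cast
    rw [abs_mul, abs_mul, abs_of_nonneg (show (0 : ℝ) ≤ g by linarith)]
    calc (g : ℝ) * (|(j : ℝ) ^ 2 + a * ((g : ℝ) - 1) ^ 2| * |(j : ℝ) ^ 2 + a * ((g : ℝ) + 1) ^ 2|)
        ≤ (g : ℝ) * (((1 + 4 * |(a : ℝ)|) * (g : ℝ) ^ 2) * ((1 + 4 * |(a : ℝ)|) * (g : ℝ) ^ 2)) := by
          gcongr
      _ = _ := by ring
  have hlogg : Real.log g ≤ 2 * L * Real.log 2 := by
    have h1 : g < 4 ^ (Nat.log 4 g + 1) := Nat.lt_pow_succ_log_self (by norm_num) g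
    have h2 : (g : ℝ) ≤ (4 : ℝ) ^ (Nat.log 4 g + 1) := by exact_mod_cast h1.le
    have h3 : Real.log g ≤ (Nat.log 4 g + 1 : ℕ) * Real.log 4 := by
      rw [← Real.log_pow]
      exact Real.log_le_log (by linarith) h2
    have h4 : Real.log 4 = 2 * Real.log 2 := by
      rw [show (4 : ℝ) = 2 ^ 2 by norm_num, Real.log_pow]
      norm_num
    have h5 : ((Nat.log 4 g + 1 : ℕ) : ℝ) ≤ L := by
      exact_mod_cast (show Nat.log 4 g + 1 ≤ L by omega)
    rw [h4] at h3
    calc Real.log g ≤ (Nat.log 4 g + 1 : ℕ) * (2 * Real.log 2) := h3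
      _ ≤ L * (2 * Real.log 2) := by gcongr
      _ = _ := by ring
  have hBc : (Bad.card : ℝ) ≤ A * L := by
    have h1 : ∏ p ∈ Bad, p ∣ (Rj a g j).natAbs := by
      apply Finset.prod_primes_dvd
      · intro p hp
        exact (Pr_prime (mem_filter.1 hp).1).prime
      · intro p hp
        exact Int.natCast_dvd.1 (mem_filter.1 hp).2
    have h2 : ∏ p ∈ Bad, p ≤ (Rj a g j).natAbs := Nat.le_of_dvd (Int.natAbs_pos.2 hR) h1
    have h3 : 2 ^ Bad.card ≤ ∏ p ∈ Bad, p := by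
      rw [← prod_const]
      apply prod_le_prod'
      intro p hp
      exact (Pr_prime (mem_filter.1 hp).1).two_le
    have h4 : ((2 : ℝ)) ^ Bad.card ≤ |((Rj a g j : ℤ) : ℝ)| := by
      have h5 : ((2 ^ Bad.card : ℕ) : ℝ) ≤ ((Rj a g j).natAbs : ℝ) := by exact_mod_cast h3.trans h2
      rw [Nat.cast_natAbs] at h5
      push_cast at h5
      exact h5
    have h5 : (Bad.card : ℝ) * Real.log 2 ≤ 2 * Real.log (1 + 4 * |(a : ℝ)|) + 5 * Real.log g := by
      have ha1 : (0 : ℝ) < 1 + 4 * |(a : ℝ)| := by positivity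
      rw [← Real.log_pow]
      calc Real.log (2 ^ Bad.card) ≤ Real.log ((1 + 4 * |(a : ℝ)|) ^ 2 * (g : ℝ) ^ 5) :=
            Real.log_le_log (by positivity) (h4.trans hRabs)
        _ = _ := by
            rw [Real.log_mul (by positivity) (by positivity), Real.log_pow, Real.log_pow]
            push_cast
            ring
    have hla : 0 ≤ Real.log (1 + 4 * |(a : ℝ)|) := Real.log_nonneg (by linarith [abs_nonneg (a : ℝ)])
    have h6 : (Bad.card : ℝ) ≤ 2 * Real.log (1 + 4 * |(a : ℝ)|) / Real.log 2 + 10 * L := by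
      have h7 : (Bad.card : ℝ) * Real.log 2 ≤ (2 * Real.log (1 + 4 * |(a : ℝ)|) / Real.log 2 + 10 * L) * Real.log 2 := by
        rw [add_mul, div_mul_cancel₀ _ hl2.ne']
        linarith
      exact le_of_mul_le_mul_right h7 hl2
    have h8 : 2 * Real.log (1 + 4 * |(a : ℝ)|) / Real.log 2 ≤ 2 * Real.log (1 + 4 * |(a : ℝ)|) / Real.log 2 * L := by
      have : 0 ≤ 2 * Real.log (1 + 4 * |(a : ℝ)|) / Real.log 2 := by positivity
      nlinarith
    rw [hA]
    linarith
  -- the factors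
  have hfac : ∀ p ∈ Pr L Y, fp a g j p ≤
      (1 - ((Zq a p).card : ℝ) / p) ^ 2 * (if (p : ℤ) ∣ Rj a g j then Real.exp (4 / L) else 1) := by
    intro p hp
    have hpp := Pr_prime hp
    have hLp : L < p := (Pr_mem.1 hp).1.1
    have hp0 : (0 : ℝ) < p := by exact_mod_cast hpp.pos
    have hLp' : (L : ℝ) ≤ p := by exact_mod_cast hLp.le
    have hr2 : ((Zq a p).card : ℝ) ≤ 2 := by exact_mod_cast Zq_card a hpp
    set x := ((Zq a p).card : ℝ) / p with hx
    have hx0 : 0 ≤ x := by positivity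
    have hx1 : x ≤ 1 / 2 := by
      rw [hx, div_le_iff₀ hp0]
      linarith
    by_cases hd : (p : ℤ) ∣ Rj a g j
    · rw [if_pos hd]
      have h1 : fp a g j p ≤ 1 - x := fp_le_one a g j
      have h2 : 2 * x ≤ 4 / L := by
        rw [hx, le_div_iff₀ (by linarith), mul_div_assoc', div_mul_eq_mul_div, div_le_iff₀ hp0]
        nlinarith
      have h3 : 1 + 2 * x ≤ Real.exp (4 / L) := by
        have := Real.add_one_le_exp (2 * x)
        have h4 := Real.exp_le_exp.2 h2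
        linarith
      calc fp a g j p ≤ 1 - x := h1
        _ ≤ (1 - x) ^ 2 * (1 + 2 * x) := by nlinarith [mul_nonneg hx0 (show 0 ≤ 1 - 2 * x by linarith), mul_nonneg hx0 hx0]
        _ ≤ (1 - x) ^ 2 * Real.exp (4 / L) := mul_le_mul_of_nonneg_left h3 (by positivity)
    · rw [if_neg hd, mul_one]
      have h1 := Wp_big hpp hd
      have h2 : 2 * ((Zq a p).card : ℝ) ≤ (Wp a g j p).card := by exact_mod_cast h1
      have h3 : 2 * x ≤ ((Wp a g j p).card : ℝ) / p := by
        rw [hx, mul_div_assoc']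
        exact div_le_div_of_nonneg_right h2 hp0.le
      unfold fp
      nlinarith
  calc ∏ p ∈ Pr L Y, fp a g j p ≤ ∏ p ∈ Pr L Y,
        ((1 - ((Zq a p).card : ℝ) / p) ^ 2 * (if (p : ℤ) ∣ Rj a g j then Real.exp (4 / L) else 1)) :=
        Finset.prod_le_prod (fun p _ => fp_nonneg a g j p) hfac
    _ = VV (Zq a) L Y ^ 2 * Real.exp (4 / L) ^ Bad.card := by
        rw [prod_mul_distrib, prod_pow, ← prod_filter, prod_const]
        rfl
    _ ≤ VV (Zq a) L Y ^ 2 * Real.exp (4 * A) := by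
        apply mul_le_mul_of_nonneg_left _ (by positivity)
        rw [← Real.exp_nat_mul]
        apply Real.exp_le_exp.2
        have hL0 : (0 : ℝ) < L := by linarith
        calc (Bad.card : ℝ) * (4 / L) ≤ (A * L) * (4 / L) := by gcongr
          _ = 4 * A := by field_simp
    _ = _ := mul_comm _ _

/-- the average over `j` -/
theorem avgFull (a : ℤ) (ha : ¬ IsSquare (-a)) : ∃ K : ℝ, 1 ≤ K ∧ ∀ g Y : ℕ, 2 ≤ g →
    8 + Nat.log 4 g ≤ Y →
    ∑ j ∈ range g, ∏ p ∈ Pr 8 Y, fp a g j p ≤ K * g * VV (Zq a) 8 Y ^ 2 := by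
  classical
  obtain ⟨K, hK1, hK⟩ := bigP a ha
  refine ⟨K * (1 + 4 ^ 8), by nlinarith, ?_⟩
  intro g Y hg hY
  set L := 8 + Nat.log 4 g with hL
  have hsplit : ∀ f : ℕ → ℝ, ∏ p ∈ Pr 8 Y, f p = (∏ p ∈ Pr 8 L, f p) * ∏ p ∈ Pr L Y, f p := by
    intro f
    have h1 : Pr 8 Y = Pr 8 L ∪ Pr L Y := by
      ext p
      rw [mem_union, Pr_mem, Pr_mem, Pr_mem]
      constructor
      · rintro ⟨⟨h1, h2⟩, h3⟩
        rcases le_or_gt p L with h | h
        · exact Or.inl ⟨⟨h1, h⟩, h3⟩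
        · exact Or.inr ⟨⟨h, h2⟩, h3⟩
      · rintro (⟨⟨h1, h2⟩, h3⟩ | ⟨⟨h1, h2⟩, h3⟩)
        · exact ⟨⟨h1, by omega⟩, h3⟩
        · exact ⟨⟨by omega, h2⟩, h3⟩
    have h2 : Disjoint (Pr 8 L) (Pr L Y) := by
      rw [disjoint_left]
      intro p hp hp2
      have h3 := (Pr_mem.1 hp).1.2
      have h4 := (Pr_mem.1 hp2).1.1
      omega
    rw [h1, prod_union h2]
  have hM : ((∏ p ∈ Pr 8 L, p : ℕ) : ℝ) ≤ 4 ^ 8 * g := by
    have h1 : ∏ p ∈ Pr 8 L, p ≤ primorial L := by
      unfold primorial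
      apply prod_le_prod_of_subset_of_one_le'
      · intro p hp
        rw [Pr_mem] at hp
        rw [mem_filter, mem_range]
        exact ⟨by omega, hp.2⟩
      · intro p hp _
        exact (mem_filter.1 hp).2.one_lt.le
    have h2 := primorial_le_four_pow L
    have h3 : 4 ^ L ≤ 4 ^ 8 * g := by
      rw [hL, pow_add]
      exact Nat.mul_le_mul_left _ (Nat.pow_log_le_self 4 (by omega))
    exact_mod_cast h1.trans (h2.trans h3)
  have havg := avgG a g (Pr 8 L) (fun p hp => Pr_prime hp)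
  have hV0 : 0 ≤ VV (Zq a) L Y ^ 2 := by positivity
  calc ∑ j ∈ range g, ∏ p ∈ Pr 8 Y, fp a g j p
      ≤ ∑ j ∈ range g, (∏ p ∈ Pr 8 L, fp a g j p) * (K * VV (Zq a) L Y ^ 2) := by
        apply sum_le_sum
        intro j hj
        rw [hsplit]
        apply mul_le_mul_of_nonneg_left (hK g j Y hg (mem_range.1 hj))
        exact prod_nonneg fun p _ => fp_nonneg a g j p
    _ = (∑ j ∈ range g, ∏ p ∈ Pr 8 L, fp a g j p) * (K * VV (Zq a) L Y ^ 2) := by rw [sum_mul]
    _ ≤ (((g : ℝ) + (∏ p ∈ Pr 8 L, p : ℕ)) * (∏ p ∈ Pr 8 L, (1 - ((Zq a p).card : ℝ) / p)) ^ 2) *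
        (K * VV (Zq a) L Y ^ 2) := mul_le_mul_of_nonneg_right havg (by positivity)
    _ ≤ (((g : ℝ) + 4 ^ 8 * g) * (∏ p ∈ Pr 8 L, (1 - ((Zq a p).card : ℝ) / p)) ^ 2) *
        (K * VV (Zq a) L Y ^ 2) := by gcongr
    _ = K * (1 + 4 ^ 8) * g * VV (Zq a) 8 Y ^ 2 := by
        have : VV (Zq a) 8 Y = (∏ p ∈ Pr 8 L, (1 - ((Zq a p).card : ℝ) / p)) * VV (Zq a) L Y := by
          unfold VV
          exact hsplit _
        rw [this]
        ring

end Pool.Agent.W5h22.QM
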