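import Mathlib

/-!
# QM.E: chains of scales, conditional averages and the second moment of the centred sums
-/

set_option autoImplicit false

namespace Pool.Agent.W5h22.QM

open Finset

theorem sum_blocks (F : ℕ → ℝ) (g A B : ℕ) (hAB : A ≤ B) :
    ∑ m ∈ Ico (A * g) (B * g), F m = ∑ c ∈ Ico A B, ∑ r ∈ range g, F (c * g + r) := by
  induction B, hAB using Nat.le_induction with
  | base => simp
  | succ B hB ih =>
    rw [sum_Ico_succ_top hB, ← ih, ← sum_Ico_consecutive F (Nat.mul_le_mul_right g hB)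
      (Nat.mul_le_mul_right g (Nat.le_succ B))]
    congr 1
    rw [show (B + 1) * g = B * g + g by ring, sum_Ico_eq_sum_range, Nat.add_sub_cancel_left]

/-- the average over the cells of the scale `D` in `[j, j + 1)` -/
noncomputable def Ev (j D : ℕ) (F : ℕ → ℝ) : ℝ := (∑ m ∈ Ico (j * D) ((j + 1) * D), F m) / D

theorem Ev_mono {j D : ℕ} {F G : ℕ → ℝ} (h : ∀ m, F m ≤ G m) : Ev j D F ≤ Ev j D G := by
  unfold Ev
  exact div_le_div_of_nonneg_right (sum_le_sum fun m _ => h m) (Nat.cast_nonneg _)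

theorem Ev_add (j D : ℕ) (F G : ℕ → ℝ) : Ev j D (fun m => F m + G m) = Ev j D F + Ev j D G := by
  unfold Ev
  rw [sum_add_distrib, add_div]

theorem Ev_mul (j D : ℕ) (c : ℝ) (F : ℕ → ℝ) : Ev j D (fun m => c * F m) = c * Ev j D F := by
  unfold Ev
  rw [← mul_sum, mul_div_assoc]

theorem Ev_sum (j D : ℕ) (s : Finset ℕ) (F : ℕ → ℕ → ℝ) :
    Ev j D (fun m => ∑ k ∈ s, F k m) = ∑ k ∈ s, Ev j D (F k) := by
  unfold Ev
  rw [sum_comm, sum_div]

theorem Ev_const {j D : ℕ} (hD : 0 < D) (c : ℝ) : Ev j D (fun _ => c) = c := by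
  unfold Ev
  rw [sum_const, Nat.card_Ico, nsmul_eq_mul]
  have h1 : (j + 1) * D - j * D = D := by
    rw [add_mul, one_mul, Nat.add_sub_cancel_left]
  have h2 : (D : ℝ) ≠ 0 := by
    have : (0 : ℝ) < D := by exact_mod_cast hD
    exact this.ne'
  rw [h1]
  field_simp

theorem Ev_scale (j : ℕ) {D g : ℕ} (hD : 0 < D) (hg : 0 < g) (F : ℕ → ℝ) :
    Ev j (D * g) (fun m => F (m / g)) = Ev j D F := by
  have hDr : (0 : ℝ) < D := by exact_mod_cast hD
  have hgr : (0 : ℝ) < g := by exact_mod_cast hg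
  unfold Ev
  rw [← mul_assoc, ← mul_assoc, sum_blocks _ g _ _ (Nat.mul_le_mul_right _ (Nat.le_succ j))]
  have h1 : ∀ c ∈ Ico (j * D) ((j + 1) * D), ∑ r ∈ range g, F ((c * g + r) / g) = g * F c := by
    intro c _
    have h2 : ∀ r ∈ range g, F ((c * g + r) / g) = F c := by
      intro r hr
      rw [mem_range] at hr
      rw [mul_comm c g, Nat.mul_add_div hg, Nat.div_eq_of_lt hr, add_zero]
    rw [sum_congr rfl h2, sum_const, card_range, nsmul_eq_mul]
  rw [sum_congr rfl h1, ← mul_sum]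
  push_cast
  field_simp

/-- the average of `I` over the cell `[c H, (c + 1) H)` -/
noncomputable def qf (I : ℕ → ℝ) (H c : ℕ) : ℝ := (∑ r ∈ range H, I (c * H + r)) / H

/-- `I` minus its conditional average -/
noncomputable def Wf (I : ℕ → ℝ) (H n : ℕ) : ℝ := I n - qf I H (n / H)

theorem qf_nonneg {I : ℕ → ℝ} (h : ∀ n, 0 ≤ I n) (H c : ℕ) : 0 ≤ qf I H c := by
  unfold qf
  exact div_nonneg (sum_nonneg fun r _ => h _) (Nat.cast_nonneg _)

theorem qf_le_one {I : ℕ → ℝ} (h : ∀ n, I n ≤ 1) (H c : ℕ) : qf I H c ≤ 1 := by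
  unfold qf
  apply div_le_one_of_le₀ _ (Nat.cast_nonneg _)
  calc ∑ r ∈ range H, I (c * H + r) ≤ ∑ _r ∈ range H, (1 : ℝ) := sum_le_sum fun r _ => h _
    _ = H := by simp

theorem block_div {c g r : ℕ} (hr : r < g) : (c * g + r) / g = c := by
  have hg : 0 < g := by omega
  rw [mul_comm c g, Nat.mul_add_div hg, Nat.div_eq_of_lt hr, add_zero]

theorem Wf_block (I : ℕ → ℝ) {H : ℕ} (hH : 0 < H) (c : ℕ) : ∑ r ∈ range H, Wf I H (c * H + r) = 0 := by
  have hHr : (0 : ℝ) < H := by exact_mod_cast hH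
  have h1 : ∀ r ∈ range H, Wf I H (c * H + r) = I (c * H + r) - qf I H c := by
    intro r hr
    unfold Wf
    rw [block_div (mem_range.1 hr)]
  rw [sum_congr rfl h1, sum_sub_distrib, sum_const, card_range, nsmul_eq_mul]
  unfold qf
  field_simp
  ring

theorem Ev_orth (F I : ℕ → ℝ) (j : ℕ) (b : ℕ) {H : ℕ} (hH : 0 < H) :
    Ev j (b * H) (fun n => F (n / H) * Wf I H n) = 0 := by
  unfold Ev
  rw [← mul_assoc, ← mul_assoc, sum_blocks _ H _ _ (Nat.mul_le_mul_right _ (Nat.le_succ j))]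
  have h1 : ∀ c ∈ Ico (j * b) ((j + 1) * b),
      ∑ r ∈ range H, F ((c * H + r) / H) * Wf I H (c * H + r) = 0 := by
    intro c _
    have h2 : ∀ r ∈ range H, F ((c * H + r) / H) * Wf I H (c * H + r) = F c * Wf I H (c * H + r) := by
      intro r hr
      rw [block_div (mem_range.1 hr)]
    rw [sum_congr rfl h2, ← mul_sum, Wf_block I hH, mul_zero]
  rw [sum_congr rfl h1]
  simp

theorem Ev_eq_q (I : ℕ → ℝ) (j : ℕ) (b : ℕ) {H : ℕ} (hH : 0 < H) :
    Ev j (b * H) I = Ev j (b * H) (fun n => qf I H (n / H)) := by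
  have h1 := Ev_orth (fun _ => 1) I j b hH
  have h2 : Ev j (b * H) I = Ev j (b * H) (fun n => (1 * Wf I H n) + qf I H (n / H)) := by
    congr 1
    funext n
    unfold Wf
    ring
  rw [h2, Ev_add, h1, zero_add]

/-! ## chains -/

theorem chain_dvd {D : ℕ → ℕ} (hd : ∀ k, D k ∣ D (k + 1)) {k K : ℕ} (h : k ≤ K) : D k ∣ D K := by
  induction K, h using Nat.le_induction with
  | base => exact dvd_refl _
  | succ K _ ih => exact ih.trans (hd K)

theorem chain_pos {D : ℕ → ℕ} (hm : StrictMono D) (hd : ∀ k, D k ∣ D (k + 1)) (k : ℕ) : 0 < D k := by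
  have h0 : 0 < D 0 := by
    rcases Nat.eq_zero_or_pos (D 0) with h | h
    · have h1 := hd 0
      rw [h, zero_dvd_iff] at h1
      have h2 := hm (show 0 < 1 by norm_num)
      rw [zero_add] at h1
      omega
    · exact h
  exact lt_of_lt_of_le h0 (hm.monotone (Nat.zero_le k))

theorem chain_pow {D : ℕ → ℕ} (hm : StrictMono D) (hd : ∀ k, D k ∣ D (k + 1)) (k : ℕ) : 2 ^ k ≤ D k := by
  induction k with
  | zero => exact chain_pos hm hd 0
  | succ k ih =>
    obtain ⟨u, hu⟩ := hd k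
    have h1 := hm (Nat.lt_succ_self k)
    have h2 := chain_pos hm hd k
    have h3 : 2 ≤ u := by
      by_contra h
      have h4 : u = 0 ∨ u = 1 := by omega
      have h5 : D k < D (k + 1) := h1
      rcases h4 with h4 | h4
      · rw [hu, h4] at h5
        omega
      · rw [hu, h4, mul_one] at h5
        omega
    rw [hu, pow_succ]
    exact Nat.mul_le_mul ih h3

theorem chain_div {D : ℕ → ℕ} (hm : StrictMono D) (hd : ∀ k, D k ∣ D (k + 1)) {k K M : ℕ} (h1 : k ≤ K) (h2 : K ≤ M) :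
    (D M / D K) * (D K / D k) = D M / D k := by
  obtain ⟨u, hu⟩ := chain_dvd hd h1
  obtain ⟨v, hv⟩ := chain_dvd hd h2
  have hk := chain_pos hm hd k
  have hK := chain_pos hm hd K
  rw [hv, Nat.mul_div_cancel_left v hK, hu, Nat.mul_div_cancel_left u hk, mul_assoc,
    Nat.mul_div_cancel_left _ hk, mul_comm]

theorem chain_div_div {D : ℕ → ℕ} (hm : StrictMono D) (hd : ∀ k, D k ∣ D (k + 1)) {k K M : ℕ} (h1 : k ≤ K) (h2 : K ≤ M)
    (m : ℕ) : m / (D M / D k) = m / (D M / D K) / (D K / D k) := by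
  rw [Nat.div_div_eq_div_mul, chain_div hm hd h1 h2]

/-- the scale of the conditional average -/
noncomputable def ph (D : ℕ → ℕ) (K : ℕ) : ℕ := Nat.findGreatest (fun l => D l ^ 3 ≤ D K) K

/-- the length of the cells, in units of the scale `K` -/
noncomputable def Hf (D : ℕ → ℕ) (K : ℕ) : ℕ := D K / D (ph D K)

theorem ph_le (D : ℕ → ℕ) (K : ℕ) : ph D K ≤ K := Nat.findGreatest_le K

theorem ph_spec {D : ℕ → ℕ} {K : ℕ} (h : D 0 ^ 3 ≤ D K) : D (ph D K) ^ 3 ≤ D K := by
  unfold ph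
  exact Nat.findGreatest_spec (P := fun l => D l ^ 3 ≤ D K) (Nat.zero_le K) h

theorem ph_ge {D : ℕ → ℕ} {k K : ℕ} (h1 : k ≤ K) (h : D k ^ 3 ≤ D K) : k ≤ ph D K := by
  unfold ph
  exact Nat.le_findGreatest h1 h

theorem Hf_mul {D : ℕ → ℕ} (hd : ∀ k, D k ∣ D (k + 1)) (K : ℕ) : D (ph D K) * Hf D K = D K := by
  unfold Hf
  exact Nat.mul_div_cancel' (chain_dvd hd (ph_le D K))

theorem Hf_pos {D : ℕ → ℕ} (hm : StrictMono D) (hd : ∀ k, D k ∣ D (k + 1)) (K : ℕ) : 0 < Hf D K := by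
  have h1 := Hf_mul hd K
  have h2 := chain_pos hm hd K
  rcases Nat.eq_zero_or_pos (Hf D K) with h | h
  · rw [h, mul_zero] at h1
    omega
  · exact h

/-- the centred sums -/
noncomputable def Tf (D : ℕ → ℕ) (I : ℕ → ℕ → ℝ) (k0 K m : ℕ) : ℝ :=
  ∑ k ∈ Ico k0 (K + 1), Wf (I k) (Hf D k) (m / (D K / D k))

section Var

variable {D : ℕ → ℕ} (hm : StrictMono D) (hd : ∀ k, D k ∣ D (k + 1)) {I : ℕ → ℕ → ℝ}
  (hI0 : ∀ k n, 0 ≤ I k n) (hI1 : ∀ k n, I k n ≤ 1) {j k0 : ℕ} {C : ℝ} (hC : 0 ≤ C)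
  (hk0 : D 0 ^ 3 ≤ D k0) (hk1 : 2 ≤ D k0)
  (h1 : ∀ k, k0 ≤ k → ∀ c, qf (I k) (Hf D k) c ≤ C / Real.log (D k))
  (h2 : ∀ k K, k0 ≤ k → k < K → Ev j (D K) (fun m => I k (m / (D K / D k)) * I K m) ≤
    C / (Real.log (D k) * Real.log (D K)))

include hm hk1 in
theorem log_pos' {k : ℕ} (hk : k0 ≤ k) : 0 < Real.log (D k) := by
  apply Real.log_pos
  have h3 : 2 ≤ D k := hk1.trans (hm.monotone hk)
  exact_mod_cast (show 1 < D k by omega)

include hm hd hI0 hI1 hC hk0 hk1 h1 h2 in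
theorem cross {k K : ℕ} (hk : k0 ≤ k) (hkK : k < K) :
    Ev j (D K) (fun m => Wf (I k) (Hf D k) (m / (D K / D k)) * Wf (I K) (Hf D K) m) ≤
      3 * (C + C ^ 2) / Real.log (D K) ^ 2 := by
  have hlk := log_pos' hm hk1 hk
  have hlK := log_pos' hm hk1 (hk.trans hkK.le)
  by_cases hfar : D k ^ 3 ≤ D K
  · have h3 : k ≤ ph D K := ph_ge hkK.le hfar
    have h4 : (fun m => Wf (I k) (Hf D k) (m / (D K / D k)) * Wf (I K) (Hf D K) m) =
        (fun m => (fun c => Wf (I k) (Hf D k) (c / (D (ph D K) / D k))) (m / Hf D K) * Wf (I K) (Hf D K) m) := by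
      funext m
      show _ = Wf (I k) (Hf D k) (m / Hf D K / (D (ph D K) / D k)) * Wf (I K) (Hf D K) m
      rw [chain_div_div hm hd h3 (ph_le D K) m]
      rfl
    rw [h4]
    have h5 := Ev_orth (fun c => Wf (I k) (Hf D k) (c / (D (ph D K) / D k))) (I K) j (D (ph D K))
      (Hf_pos hm hd K)
    rw [Hf_mul hd K] at h5
    rw [h5]
    positivity
  · rw [not_le] at hfar
    have h3 : Real.log (D K) ≤ 3 * Real.log (D k) := by
      have h4 : ((D K : ℕ) : ℝ) ≤ ((D k : ℕ) : ℝ) ^ 3 := by exact_mod_cast hfar.le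
      have h5 : (0 : ℝ) < D K := by exact_mod_cast chain_pos hm hd K
      have h6 := Real.log_le_log h5 h4
      rw [Real.log_pow] at h6
      push_cast at h6
      exact h6
    have h4 : ∀ m, Wf (I k) (Hf D k) (m / (D K / D k)) * Wf (I K) (Hf D K) m ≤
        I k (m / (D K / D k)) * I K m + (C ^ 2 / (Real.log (D k) * Real.log (D K))) := by
      intro m
      unfold Wf
      have a1 := hI0 k (m / (D K / D k))
      have a2 := hI0 K m
      have a3 := qf_nonneg (hI0 k) (Hf D k) (m / (D K / D k) / Hf D k)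
      have a4 := qf_nonneg (hI0 K) (Hf D K) (m / Hf D K)
      have a5 := h1 k hk (m / (D K / D k) / Hf D k)
      have a6 := h1 K (hk.trans hkK.le) (m / Hf D K)
      have a7 : qf (I k) (Hf D k) (m / (D K / D k) / Hf D k) * qf (I K) (Hf D K) (m / Hf D K) ≤
          (C / Real.log (D k)) * (C / Real.log (D K)) := mul_le_mul a5 a6 a4 (by positivity)
      have a8 : (C / Real.log (D k)) * (C / Real.log (D K)) = C ^ 2 / (Real.log (D k) * Real.log (D K)) := by
        field_simp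
      have a9 := mul_nonneg a1 a4
      have a10 := mul_nonneg a3 a2
      nlinarith
    have h5 := Ev_mono (j := j) (D := D K) h4
    rw [Ev_add, Ev_const (chain_pos hm hd K)] at h5
    have h6 := h2 k K hk hkK
    refine h5.trans ?_
    calc Ev j (D K) (fun m => I k (m / (D K / D k)) * I K m) + C ^ 2 / (Real.log (D k) * Real.log (D K))
        ≤ C / (Real.log (D k) * Real.log (D K)) + C ^ 2 / (Real.log (D k) * Real.log (D K)) := by linarith
      _ = (C + C ^ 2) / (Real.log (D k) * Real.log (D K)) := by rw [add_div]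
      _ ≤ 3 * (C + C ^ 2) / Real.log (D K) ^ 2 := by
          rw [div_le_div_iff₀ (by positivity) (by positivity)]
          have h7 : 0 ≤ (C + C ^ 2) * Real.log (D K) := by positivity
          nlinarith

include hm hd hI0 hI1 h1 in
theorem diag {K : ℕ} (hk : k0 ≤ K) :
    Ev j (D K) (fun m => Wf (I K) (Hf D K) m ^ 2) ≤ 2 * C / Real.log (D K) := by
  have h3 : ∀ m, Wf (I K) (Hf D K) m ^ 2 ≤ I K m + qf (I K) (Hf D K) (m / Hf D K) := by
    intro m
    unfold Wf
    have a1 := hI0 K m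
    have a2 := hI1 K m
    have a3 := qf_nonneg (hI0 K) (Hf D K) (m / Hf D K)
    have a4 := qf_le_one (hI1 K) (Hf D K) (m / Hf D K)
    nlinarith [mul_nonneg a1 a3]
  have h4 := Ev_mono (j := j) (D := D K) h3
  rw [Ev_add] at h4
  have h5 := Ev_eq_q (I K) j (D (ph D K)) (Hf_pos hm hd K)
  rw [Hf_mul hd K] at h5
  have h6 : Ev j (D K) (fun n => qf (I K) (Hf D K) (n / Hf D K)) ≤ C / Real.log (D K) := by
    have h7 := Ev_mono (j := j) (D := D K) (fun n => h1 K hk (n / Hf D K))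
    rwa [Ev_const (chain_pos hm hd K)] at h7
  have h8 : Ev j (D K) (fun m => I K m) = Ev j (D K) (I K) := rfl
  refine h4.trans ?_
  rw [h8, h5]
  calc _ ≤ C / Real.log (D K) + C / Real.log (D K) := add_le_add h6 h6
    _ = _ := by ring

include hm hd in
theorem Tf_succ {K : ℕ} (hK : k0 ≤ K + 1) (m : ℕ) :
    Tf D I k0 (K + 1) m = Tf D I k0 K (m / (D (K + 1) / D K)) + Wf (I (K + 1)) (Hf D (K + 1)) m := by
  unfold Tf
  rw [sum_Ico_succ_top hK]
  congr 1
  · apply sum_congr rfl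
    intro k hk
    rw [mem_Ico] at hk
    rw [chain_div_div hm hd (show k ≤ K by omega) (Nat.le_succ K)]
  · rw [Nat.div_self (chain_pos hm hd (K + 1)), Nat.div_one]

include hm hd hI0 hI1 hC hk0 hk1 h1 h2 in
/-- the second moment of the centred sums -/
theorem var {K : ℕ} (hK : k0 ≤ K) :
    Ev j (D K) (fun m => Tf D I k0 K m ^ 2) ≤
      (2 * C + 6 * (C + C ^ 2) / Real.log 2) * ∑ k ∈ Ico k0 (K + 1), 1 / Real.log (D k) := by
  have hl2 : (0 : ℝ) < Real.log 2 := Real.log_pos (by norm_num)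
  induction K, hK using Nat.le_induction with
  | base =>
    have hl := log_pos' hm hk1 le_rfl
    have h3 : (fun m => Tf D I k0 k0 m ^ 2) = (fun m => Wf (I k0) (Hf D k0) m ^ 2) := by
      funext m
      unfold Tf
      rw [Nat.Ico_succ_singleton, sum_singleton, Nat.div_self (chain_pos hm hd k0), Nat.div_one]
    rw [h3, Nat.Ico_succ_singleton, sum_singleton]
    refine (diag hm hd hI0 hI1 h1 le_rfl).trans ?_
    rw [mul_one_div]
    apply div_le_div_of_nonneg_right _ hl.le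
    have : 0 ≤ 6 * (C + C ^ 2) / Real.log 2 := by positivity
    linarith
  | succ K hK ih =>
    have hl := log_pos' hm hk1 (show k0 ≤ K + 1 by omega)
    have hdiv : D K * (D (K + 1) / D K) = D (K + 1) := Nat.mul_div_cancel' (hd K)
    have hdpos : 0 < D (K + 1) / D K := Nat.div_pos (hm.monotone (Nat.le_succ K)) (chain_pos hm hd K)
    have e1 : (fun m => Tf D I k0 (K + 1) m ^ 2) = (fun m =>
        ((fun n => Tf D I k0 K n ^ 2) (m / (D (K + 1) / D K)) +
          2 * (∑ k ∈ Ico k0 (K + 1), Wf (I k) (Hf D k) (m / (D (K + 1) / D k)) *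
            Wf (I (K + 1)) (Hf D (K + 1)) m)) + Wf (I (K + 1)) (Hf D (K + 1)) m ^ 2) := by
      funext m
      rw [Tf_succ hm hd (by omega)]
      have e2 : ∑ k ∈ Ico k0 (K + 1), Wf (I k) (Hf D k) (m / (D (K + 1) / D k)) *
            Wf (I (K + 1)) (Hf D (K + 1)) m =
          Tf D I k0 K (m / (D (K + 1) / D K)) * Wf (I (K + 1)) (Hf D (K + 1)) m := by
        unfold Tf
        rw [sum_mul]
        apply sum_congr rfl
        intro k hk
        rw [mem_Ico] at hk
        rw [chain_div_div hm hd (show k ≤ K by omega) (Nat.le_succ K)]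
      rw [e2]
      ring
    rw [e1, Ev_add, Ev_add, Ev_mul, Ev_sum]
    have e3 : Ev j (D (K + 1)) (fun m => (fun n => Tf D I k0 K n ^ 2) (m / (D (K + 1) / D K))) =
        Ev j (D K) (fun n => Tf D I k0 K n ^ 2) := by
      have h3 := Ev_scale j (chain_pos hm hd K) hdpos (fun n => Tf D I k0 K n ^ 2)
      rw [hdiv] at h3
      exact h3
    rw [e3]
    have e4 : ∑ k ∈ Ico k0 (K + 1), Ev j (D (K + 1)) (fun m => Wf (I k) (Hf D k) (m / (D (K + 1) / D k)) *
            Wf (I (K + 1)) (Hf D (K + 1)) m) ≤ 3 * (C + C ^ 2) / Real.log 2 / Real.log (D (K + 1)) := by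
      calc _ ≤ ∑ _k ∈ Ico k0 (K + 1), 3 * (C + C ^ 2) / Real.log (D (K + 1)) ^ 2 := by
            apply sum_le_sum
            intro k hk
            rw [mem_Ico] at hk
            exact cross hm hd hI0 hI1 hC hk0 hk1 h1 h2 hk.1 hk.2
        _ = ((K + 1 - k0 : ℕ) : ℝ) * (3 * (C + C ^ 2) / Real.log (D (K + 1)) ^ 2) := by
            rw [sum_const, Nat.card_Ico, nsmul_eq_mul]
        _ ≤ (Real.log (D (K + 1)) / Real.log 2) * (3 * (C + C ^ 2) / Real.log (D (K + 1)) ^ 2) := by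
            apply mul_le_mul_of_nonneg_right _ (by positivity)
            have h3 : ((K + 1 - k0 : ℕ) : ℝ) ≤ ((K + 1 : ℕ) : ℝ) := by exact_mod_cast Nat.sub_le _ _
            refine h3.trans ?_
            rw [le_div_iff₀ hl2, ← Real.log_pow]
            apply Real.log_le_log (by positivity)
            exact_mod_cast chain_pow hm hd (K + 1)
        _ = _ := by
            field_simp
    have e5 := diag (j := j) hm hd hI0 hI1 h1 (show k0 ≤ K + 1 by omega)
    rw [sum_Ico_succ_top (show k0 ≤ K + 1 by omega), mul_add]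
    have e6 : (2 * C + 6 * (C + C ^ 2) / Real.log 2) * (1 / Real.log (D (K + 1))) =
        2 * (3 * (C + C ^ 2) / Real.log 2 / Real.log (D (K + 1))) + 2 * C / Real.log (D (K + 1)) := by
      field_simp
      ring
    rw [e6]
    linarith

end Var

end Pool.Agent.W5h22.QM
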