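import Pool.Agent.W5h22.QM.A
import Pool.Agent.W5h22.QM.E

/-!
# QM.F: the inputs of the metric theorem, and its measure theoretic lemmas
-/

set_option autoImplicit false

namespace Pool.Agent.W5h22.QM

open Finset Filter MeasureTheory

open Classical in
theorem upQ (a : ℤ) (ha : ¬ IsSquare (-a)) : ∃ C : ℝ, 0 < C ∧ ∃ x₀ : ℕ, ∀ x : ℕ, x₀ ≤ x → ∀ H c : ℕ,
    (x : ℝ) ^ (2 / 3 : ℝ) ≤ H →
      (((Ico (c * H) ((c + 1) * H)).filter (P3 a x)).card : ℝ) ≤ C * H / Real.log x := by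
  obtain ⟨C, hC, x0, h⟩ := singleR a ha
  refine ⟨C, hC, max x0 2, fun x hx H c hH => ?_⟩
  have hx1 : (1 : ℝ) ≤ x := by exact_mod_cast (show 1 ≤ x by omega)
  have h4 : (x : ℝ) ^ (1 / 4 : ℝ) ≤ H :=
    le_trans (Real.rpow_le_rpow_of_exponent_le hx1 (by norm_num)) hH
  refine le_trans ?_ (h x (by omega) (c * H - 1) H h4)
  apply Nat.cast_le.2
  apply card_le_card
  intro n hn
  rw [mem_filter, mem_Ico] at hn
  rw [mem_filter, mem_Ioc]
  have h1 : (c + 1) * H = c * H + H := by ring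
  have h2 := hn.2.1
  exact ⟨⟨by omega, by omega⟩, hn.2.2.2⟩

open Classical in
theorem upPair (a : ℤ) (ha : ¬ IsSquare (-a)) : ∃ C : ℝ, 0 < C ∧ ∃ x₀ : ℕ, ∀ x : ℕ, x₀ ≤ x → ∀ g : ℕ, 2 ≤ g →
    ∀ j : ℕ, (((Ico (j * (g * x)) ((j + 1) * (g * x))).filter
      (fun m => P3 a x (m / g) ∧ P3 a (g * x) m)).card : ℝ) ≤
        C * ((g * x : ℕ) : ℝ) / (Real.log x * Real.log ((g * x : ℕ) : ℝ)) := by
  obtain ⟨C, hC, x0, h⟩ := pairR a ha
  refine ⟨C, hC, max x0 2, fun x hx g hg j => ?_⟩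
  have hx1 : (1 : ℝ) ≤ x := by exact_mod_cast (show 1 ≤ x by omega)
  have h4 : (x : ℝ) ^ (1 / 2 : ℝ) ≤ x := by
    calc (x : ℝ) ^ (1 / 2 : ℝ) ≤ (x : ℝ) ^ (1 : ℝ) := Real.rpow_le_rpow_of_exponent_le hx1 (by norm_num)
      _ = x := Real.rpow_one _
  have h5 := h x (by omega) g hg (j * x - 1) x h4
  have h6 : C * g * x = C * ((g * x : ℕ) : ℝ) := by push_cast; ring
  rw [h6] at h5
  refine le_trans ?_ h5
  apply Nat.cast_le.2
  apply card_le_card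
  intro m hm
  rw [mem_filter, mem_Ico] at hm
  rw [mem_filter, mem_Ico]
  obtain ⟨⟨h7, h8⟩, h9, h10⟩ := hm
  refine ⟨⟨?_, ?_⟩, h9.2.2, h10.2.2⟩
  · rcases Nat.eq_zero_or_pos j with hj | hj
    · subst hj
      have h11 : 1 ≤ m / g := h9.1
      have h12 : 1 * g ≤ m := (Nat.le_div_iff_mul_le (by omega)).1 h11
      rw [zero_mul, Nat.zero_sub, zero_add, mul_one]
      omega
    · have h11 : 1 ≤ j * x := Nat.mul_pos hj (by omega)
      have h12 : j * x - 1 + 1 = j * x := by omega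
      rw [h12]
      calc g * (j * x) = j * (g * x) := by ring
        _ ≤ m := h7
  · refine lt_of_lt_of_le h8 ?_
    calc (j + 1) * (g * x) = g * (j * x + x) := by ring
      _ ≤ g * (j * x - 1 + x + 1) := Nat.mul_le_mul_left g (by omega)

theorem Hf_big {D : ℕ → ℕ} (hm : StrictMono D) (hd : ∀ k, D k ∣ D (k + 1)) {k : ℕ} (h : D 0 ^ 3 ≤ D k) :
    ((D k : ℕ) : ℝ) ^ (2 / 3 : ℝ) ≤ (Hf D k : ℕ) := by
  have h1 := ph_spec h
  have h2 := Hf_mul hd k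
  have h3 := chain_pos hm hd k
  have h4 := chain_pos hm hd (ph D k)
  have h3r : (0 : ℝ) < D k := by exact_mod_cast h3
  have h4r : (0 : ℝ) < D (ph D k) := by exact_mod_cast h4
  have h5 : ((D (ph D k) : ℕ) : ℝ) ≤ ((D k : ℕ) : ℝ) ^ (1 / 3 : ℝ) := by
    have h6 : ((D (ph D k) : ℕ) : ℝ) ^ (3 : ℝ) ≤ D k := by
      rw [show (3 : ℝ) = ((3 : ℕ) : ℝ) by norm_num, Real.rpow_natCast]
      exact_mod_cast h1
    calc ((D (ph D k) : ℕ) : ℝ) = (((D (ph D k) : ℕ) : ℝ) ^ (3 : ℝ)) ^ (1 / 3 : ℝ) := by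
          rw [← Real.rpow_mul h4r.le]; norm_num
      _ ≤ _ := Real.rpow_le_rpow (by positivity) h6 (by norm_num)
  have h6 : ((D k : ℕ) : ℝ) ^ (2 / 3 : ℝ) * ((D k : ℕ) : ℝ) ^ (1 / 3 : ℝ) = D k := by
    rw [← Real.rpow_add h3r]; norm_num
  have h7 : ((D (ph D k) : ℕ) : ℝ) * (Hf D k : ℕ) = D k := by exact_mod_cast h2
  have h8 : 0 < ((D k : ℕ) : ℝ) ^ (1 / 3 : ℝ) := by positivity
  have h9 : (0 : ℝ) ≤ (Hf D k : ℕ) := Nat.cast_nonneg _
  have h10 : ((D k : ℕ) : ℝ) ^ (2 / 3 : ℝ) * ((D k : ℕ) : ℝ) ^ (1 / 3 : ℝ) ≤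
      (Hf D k : ℕ) * ((D k : ℕ) : ℝ) ^ (1 / 3 : ℝ) := by
    calc ((D k : ℕ) : ℝ) ^ (2 / 3 : ℝ) * ((D k : ℕ) : ℝ) ^ (1 / 3 : ℝ) = D k := h6
      _ = ((D (ph D k) : ℕ) : ℝ) * (Hf D k : ℕ) := h7.symm
      _ ≤ ((D k : ℕ) : ℝ) ^ (1 / 3 : ℝ) * (Hf D k : ℕ) := mul_le_mul_of_nonneg_right h5 h9
      _ = _ := mul_comm _ _
  exact le_of_mul_le_mul_right h10 h8

open Classical in
theorem qf_card (P : ℕ → Prop) (H c : ℕ) :
    qf (fun n => if P n then 1 else 0) H c = (((Ico (c * H) ((c + 1) * H)).filter P).card : ℝ) / H := by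
  unfold qf
  congr 1
  rw [card_filter]
  push_cast
  rw [sum_Ico_eq_sum_range]
  have h1 : (c + 1) * H - c * H = H := by
    rw [add_mul, one_mul, Nat.add_sub_cancel_left]
  rw [h1]

/-! ## measure -/

theorem vol_cells (b : ℕ) (hb : 0 < b) (M : Finset ℕ) :
    volume {α : ℝ | 0 ≤ α ∧ ⌊α * b⌋₊ ∈ M} ≤ ENNReal.ofReal (M.card / b) := by
  have hbr : (0 : ℝ) < b := by exact_mod_cast hb
  have h1 : {α : ℝ | 0 ≤ α ∧ ⌊α * b⌋₊ ∈ M} ⊆ ⋃ m ∈ M, Set.Ico ((m : ℝ) / b) (((m : ℝ) + 1) / b) := by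
    rintro α ⟨h0, h2⟩
    refine Set.mem_biUnion h2 ⟨?_, ?_⟩
    · rw [div_le_iff₀ hbr]
      exact Nat.floor_le (by positivity)
    · rw [lt_div_iff₀ hbr]
      exact Nat.lt_floor_add_one _
  refine (measure_mono h1).trans ((measure_biUnion_finset_le M _).trans ?_)
  have h2 : ∀ m ∈ M, volume (Set.Ico ((m : ℝ) / b) (((m : ℝ) + 1) / b)) = ENNReal.ofReal (1 / b) := by
    intro m _
    rw [Real.volume_Ico]
    congr 1
    rw [← sub_div]
    congr 1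
    ring
  rw [sum_congr rfl h2, sum_const, nsmul_eq_mul, ← ENNReal.ofReal_natCast, ← ENNReal.ofReal_mul (Nat.cast_nonneg _)]
  apply ENNReal.ofReal_le_ofReal
  rw [mul_one_div]

theorem bc (s : ℕ → Set ℝ) (f : ℕ → ℝ) (hf0 : ∀ k, 0 ≤ f k) (hf : Summable f) (k₀ : ℕ)
    (h : ∀ k, k₀ ≤ k → volume (s k) ≤ ENNReal.ofReal (f k)) : ∀ᵐ α : ℝ, ∀ᶠ k in atTop, α ∉ s k := by
  have h1 : ∑' k, volume (s (k + k₀)) ≠ ⊤ := by
    have h2 : ∑' k, volume (s (k + k₀)) ≤ ∑' k, ENNReal.ofReal (f (k + k₀)) :=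
      ENNReal.tsum_le_tsum fun k => h _ (Nat.le_add_left _ _)
    have h3 : Summable (fun k => f (k + k₀)) := (summable_nat_add_iff k₀).2 hf
    have h4 := ENNReal.ofReal_tsum_of_nonneg (fun k => hf0 (k + k₀)) h3
    rw [← h4] at h2
    exact ne_top_of_le_ne_top ENNReal.ofReal_ne_top h2
  filter_upwards [ae_eventually_notMem h1] with α hα
  obtain ⟨K, hK⟩ := eventually_atTop.1 hα
  refine eventually_atTop.2 ⟨K + k₀, fun k hk => ?_⟩
  have h2 := hK (k - k₀) (by omega)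
  rwa [show k - k₀ + k₀ = k by omega] at h2

theorem floor_scale (α : ℝ) {u v g : ℕ} (h : u * g = v) (hg : 0 < g) :
    ⌊α * (v : ℝ)⌋₊ / g = ⌊α * (u : ℝ)⌋₊ := by
  rw [← Nat.floor_div_natCast]
  congr 1
  have hgr : (g : ℝ) ≠ 0 := by
    have : (0 : ℝ) < g := by exact_mod_cast hg
    exact this.ne'
  rw [← h]
  push_cast
  field_simp

/-! ## interpolation -/

theorem exK {S : ℕ → ℝ} (hS : Tendsto S atTop atTop) (m : ℕ) : ∃ K, (2 : ℝ) ^ m ≤ S K :=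
  (hS.eventually_ge_atTop ((2 : ℝ) ^ m)).exists

open Classical in
/-- the first index with `S ≥ 2 ^ m` -/
noncomputable def kap {S : ℕ → ℝ} (hS : Tendsto S atTop atTop) (m : ℕ) : ℕ := Nat.find (exK hS m)

theorem kap_spec {S : ℕ → ℝ} (hS : Tendsto S atTop atTop) (m : ℕ) : (2 : ℝ) ^ m ≤ S (kap hS m) := by
  classical
  unfold kap
  exact Nat.find_spec (exK hS m)

theorem kap_le {S : ℕ → ℝ} (hS : Tendsto S atTop atTop) {m K : ℕ} (h : (2 : ℝ) ^ m ≤ S K) : kap hS m ≤ K := by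
  classical
  unfold kap
  exact Nat.find_min' (exK hS m) h

theorem kap_up {S : ℕ → ℝ} (hS : Tendsto S atTop atTop) (h0 : S 0 ≤ 2) (h1 : ∀ K, S (K + 1) ≤ S K + 2) (m : ℕ) :
    S (kap hS m) ≤ (2 : ℝ) ^ m + 2 := by
  rcases Nat.eq_zero_or_pos (kap hS m) with h | h
  · rw [h]
    have : (0 : ℝ) < 2 ^ m := by positivity
    linarith
  · obtain ⟨K, hK⟩ : ∃ K, kap hS m = K + 1 := ⟨kap hS m - 1, by omega⟩
    have h2 : S K < (2 : ℝ) ^ m := by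
      by_contra hcon
      rw [not_lt] at hcon
      have := kap_le hS hcon
      omega
    rw [hK]
    linarith [h1 K]

theorem interp {S N : ℕ → ℝ} (hSm : Monotone S) (hS : Tendsto S atTop atTop) (h0 : S 0 ≤ 2)
    (h1 : ∀ K, S (K + 1) ≤ S K + 2) (hN : Monotone N) {c C : ℝ} (hc : 0 ≤ c) (hC : 0 ≤ C)
    (h : ∀ᶠ m in atTop, c * S (kap hS m) ≤ N (kap hS m) ∧ N (kap hS m) ≤ C * S (kap hS m)) :
    ∀ᶠ K in atTop, c / 2 * S K ≤ N K ∧ N K ≤ 4 * C * S K := by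
  obtain ⟨m0, hm0⟩ := eventually_atTop.1 h
  filter_upwards [hS.eventually_ge_atTop ((2 : ℝ) ^ m0), hS.eventually_ge_atTop 1] with K hK hK1
  obtain ⟨m, hm1, hm2⟩ := exists_nat_pow_near hK1 (show (1 : ℝ) < 2 by norm_num)
  have hmm : m0 ≤ m := by
    by_contra hcon
    have h3 : m + 1 ≤ m0 := by omega
    have h4 : (2 : ℝ) ^ (m + 1) ≤ 2 ^ m0 := pow_le_pow_right₀ (by norm_num) h3
    linarith
  have a1 := kap_le hS hm1
  have a2 : K ≤ kap hS (m + 1) := by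
    by_contra hcon
    rw [not_le] at hcon
    have h3 := kap_spec hS (m + 1)
    have h4 := hSm hcon.le
    linarith
  have b1 := hm0 m hmm
  have b2 := hm0 (m + 1) (by omega)
  have c1 := kap_spec hS m
  have c2 := kap_up hS h0 h1 (m + 1)
  constructor
  · calc c / 2 * S K ≤ c / 2 * 2 ^ (m + 1) := mul_le_mul_of_nonneg_left hm2.le (by positivity)
      _ = c * 2 ^ m := by ring
      _ ≤ c * S (kap hS m) := mul_le_mul_of_nonneg_left c1 hc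
      _ ≤ N (kap hS m) := b1.1
      _ ≤ N K := hN a1
  · calc N K ≤ N (kap hS (m + 1)) := hN a2
      _ ≤ C * S (kap hS (m + 1)) := b2.2
      _ ≤ C * (2 ^ (m + 1) + 2) := mul_le_mul_of_nonneg_left c2 hC
      _ = C * (2 * 2 ^ m + 2) := by ring
      _ ≤ C * (4 * S K) := by
          apply mul_le_mul_of_nonneg_left _ hC
          linarith
      _ = _ := by ring

end Pool.Agent.W5h22.QM
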