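import Pool.Agent.W5h22.QM.F

/-!
# QM.G: the order of magnitude, for almost all points of `[j, j + 1)`
-/

set_option autoImplicit false

namespace Pool.Agent.W5h22.QM

open Finset Filter MeasureTheory

open Classical in
/-- the indicator function of the almost primes at the scale `D k` -/
noncomputable def Ik (a : ℤ) (D : ℕ → ℕ) (k n : ℕ) : ℝ := if P3 a (D k) n then 1 else 0

theorem Ik_nonneg (a : ℤ) (D : ℕ → ℕ) (k n : ℕ) : 0 ≤ Ik a D k n := by
  unfold Ik
  split_ifs <;> norm_num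

theorem Ik_le_one (a : ℤ) (D : ℕ → ℕ) (k n : ℕ) : Ik a D k n ≤ 1 := by
  unfold Ik
  split_ifs <;> norm_num

/-- the sum of `1 / log (D k)` over `k0 ≤ k ≤ K` -/
noncomputable def SS (D : ℕ → ℕ) (k0 K : ℕ) : ℝ := ∑ k ∈ Ico k0 (K + 1), 1 / Real.log (D k)

theorem log_nonneg' {D : ℕ → ℕ} (k : ℕ) : 0 ≤ 1 / Real.log (D k) := by
  have : 0 ≤ Real.log (D k) := Real.log_natCast_nonneg _
  positivity

theorem SS_mono (D : ℕ → ℕ) (k0 : ℕ) : Monotone (SS D k0) := by
  intro K M h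
  unfold SS
  exact sum_le_sum_of_subset_of_nonneg (Ico_subset_Ico_right (by omega)) fun k _ _ => log_nonneg' k

theorem SS_tendsto {D : ℕ → ℕ} (h : ¬ Summable (fun k => 1 / Real.log (D k))) (k0 : ℕ) :
    Tendsto (SS D k0) atTop atTop := by
  have h1 := (not_summable_iff_tendsto_nat_atTop_of_nonneg (fun k => log_nonneg' (D := D) k)).1 h
  have h2 := h1.comp (tendsto_add_atTop_nat 1)
  have h3 := tendsto_atTop_add_const_right atTop (-∑ k ∈ range k0, 1 / Real.log (D k)) h2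
  apply h3.congr'
  filter_upwards [eventually_ge_atTop k0] with K hK
  have h4 := sum_range_add_sum_Ico (fun k => 1 / Real.log (D k)) (show k0 ≤ K + 1 by omega)
  unfold SS
  show (∑ k ∈ range (K + 1), 1 / Real.log (D k)) + -∑ k ∈ range k0, 1 / Real.log (D k) = _
  linarith

theorem floor_Ico {j D : ℕ} (hD : 0 < D) {α : ℝ} (h : α ∈ Set.Ico (j : ℝ) (j + 1)) :
    ⌊α * (D : ℝ)⌋₊ ∈ Ico (j * D) ((j + 1) * D) := by
  have hDr : (0 : ℝ) < D := by exact_mod_cast hD
  have h0 : (0 : ℝ) ≤ α := le_trans (Nat.cast_nonneg _) h.1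
  rw [mem_Ico]
  constructor
  · apply Nat.le_floor
    push_cast
    exact mul_le_mul_of_nonneg_right h.1 hDr.le
  · rw [Nat.floor_lt (by positivity)]
    push_cast
    exact mul_lt_mul_of_pos_right h.2 hDr

theorem ph_big {D : ℕ → ℕ} (hm : StrictMono D) (l : ℕ) : ∀ᶠ k in atTop, l ≤ D (ph D k) := by
  filter_upwards [eventually_ge_atTop (max l (D l ^ 3))] with k hk
  have h1 : D l ^ 3 ≤ D k := le_trans (le_trans (le_max_right _ _) hk) hm.le_apply
  have h2 : l ≤ ph D k := ph_ge (le_trans (le_max_left _ _) hk) h1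
  exact h2.trans hm.le_apply

open Classical in
theorem window (a : ℤ) (ha : ¬ IsSquare (-a)) : ∃ c C : ℝ, 0 < c ∧ 0 < C ∧ ∀ D : ℕ → ℕ, StrictMono D →
    (∀ k, D k ∣ D (k + 1)) → ¬ Summable (fun k => 1 / Real.log (D k)) → ∀ j : ℕ, ∃ k0 : ℕ,
    ∀ᵐ α : ℝ, α ∈ Set.Ico (j : ℝ) (j + 1) → 0 < α → ∀ᶠ K in atTop,
      c * SS D k0 K ≤ ∑ k ∈ Ico k0 (K + 1), Ik a D k ⌊α * (D k : ℝ)⌋₊ ∧
      ∑ k ∈ Ico k0 (K + 1), Ik a D k ⌊α * (D k : ℝ)⌋₊ ≤ C * SS D k0 K := by
  obtain ⟨C1, hC1, x1, hq⟩ := upQ a ha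
  obtain ⟨C2, hC2, x2, hp⟩ := upPair a ha
  obtain ⟨c1, hc1, hcells⟩ := cells a ha
  set Cm := max C1 C2 with hCm
  have hCm0 : 0 < Cm := lt_of_lt_of_le hC1 (le_max_left _ _)
  refine ⟨c1 / 2 / 2, 4 * (Cm + c1), by positivity, by positivity, ?_⟩
  intro D hm hd hns j
  obtain ⟨x3, hx3⟩ := hcells j
  refine ⟨x1 + x2 + x3 + D 0 ^ 3 + 2, ?_⟩
  set k0 := x1 + x2 + x3 + D 0 ^ 3 + 2 with hk0def
  have hDk : ∀ k, k ≤ D k := fun k => hm.le_apply
  have hDk0 : ∀ k, k0 ≤ k → k0 ≤ D k := fun k hk => hk.trans (hDk k)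
  have hcube : ∀ k, k0 ≤ k → D 0 ^ 3 ≤ D k := fun k hk => by
    have := hDk0 k hk
    omega
  have hk1 : 2 ≤ D k0 := by
    have := hDk0 k0 le_rfl
    omega
  have hlog : ∀ k, k0 ≤ k → 0 < Real.log (D k) := fun k hk => log_pos' hm hk1 hk
  -- the two inputs of the second moment
  have h1 : ∀ k, k0 ≤ k → ∀ c, qf (Ik a D k) (Hf D k) c ≤ Cm / Real.log (D k) := by
    intro k hk c
    have hH := Hf_big hm hd (hcube k hk)
    have hHp : (0 : ℝ) < (Hf D k : ℕ) := by exact_mod_cast Hf_pos hm hd k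
    have e1 : qf (Ik a D k) (Hf D k) c =
        (((Ico (c * Hf D k) ((c + 1) * Hf D k)).filter (P3 a (D k))).card : ℝ) / (Hf D k : ℕ) :=
      qf_card (P3 a (D k)) (Hf D k) c
    rw [e1, div_le_iff₀ hHp]
    have h2 := hq (D k) (by have := hDk0 k hk; omega) (Hf D k) c hH
    refine h2.trans ?_
    rw [div_mul_eq_mul_div]
    apply div_le_div_of_nonneg_right _ (hlog k hk).le
    exact mul_le_mul_of_nonneg_right (le_max_left _ _) hHp.le
  have h2 : ∀ k K, k0 ≤ k → k < K → Ev j (D K) (fun m => Ik a D k (m / (D K / D k)) * Ik a D K m) ≤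
      Cm / (Real.log (D k) * Real.log (D K)) := by
    intro k K hk hkK
    have hDpos := chain_pos hm hd K
    have hDr : (0 : ℝ) < D K := by exact_mod_cast hDpos
    set g := D K / D k with hg
    have hgx : g * D k = D K := Nat.div_mul_cancel (chain_dvd hd hkK.le)
    have hg2 : 2 ≤ g := by
      by_contra hcon
      have h5 : g ≤ 1 := by omega
      have h6 : D K ≤ D k := by
        rw [← hgx]
        calc g * D k ≤ 1 * D k := Nat.mul_le_mul_right _ h5
          _ = D k := one_mul _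
      have h7 := hm hkK
      omega
    have h3 := hp (D k) (by have := hDk0 k hk; omega) g hg2 j
    rw [hgx] at h3
    unfold Ev
    rw [div_le_iff₀ hDr]
    have e1 : ∑ m ∈ Ico (j * D K) ((j + 1) * D K), Ik a D k (m / g) * Ik a D K m =
        (((Ico (j * D K) ((j + 1) * D K)).filter (fun m => P3 a (D k) (m / g) ∧ P3 a (D K) m)).card : ℝ) := by
      rw [card_filter]
      push_cast
      apply sum_congr rfl
      intro m _
      unfold Ik
      by_cases u1 : P3 a (D k) (m / g) <;> by_cases u2 : P3 a (D K) m <;> simp [u1, u2]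
    rw [e1]
    refine h3.trans ?_
    rw [div_mul_eq_mul_div]
    have hl1 := hlog k hk
    have hl2 := hlog K (hk.trans hkK.le)
    apply div_le_div_of_nonneg_right _ (by positivity)
    exact mul_le_mul_of_nonneg_right (le_max_right _ _) hDr.le
  have hvar : ∀ K, k0 ≤ K → Ev j (D K) (fun m => Tf D (Ik a D) k0 K m ^ 2) ≤
      (2 * Cm + 6 * (Cm + Cm ^ 2) / Real.log 2) * SS D k0 K := fun K hK =>
    var hm hd (Ik_nonneg a D) (Ik_le_one a D) hCm0.le (hcube k0 le_rfl) hk1 h1 h2 hK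
  set C' := 2 * Cm + 6 * (Cm + Cm ^ 2) / Real.log 2 with hC'
  have hl2 : (0 : ℝ) < Real.log 2 := Real.log_pos (by norm_num)
  have hC'0 : 0 < C' := by positivity
  -- the exceptional cells
  have hA1 : ∀ᵐ α : ℝ, ∀ᶠ k in atTop, α ∉ {α : ℝ | 0 ≤ α ∧ ⌊α * ((D (ph D k) : ℕ) : ℝ)⌋₊ ∈
      (Ico (j * D (ph D k)) ((j + 1) * D (ph D k))).filter (fun c => 1 ≤ c ∧
        (((Ico (c * Hf D k) ((c + 1) * Hf D k)).filter (P3 a (D k))).card : ℝ) <
          c1 * (Hf D k : ℕ) / Real.log (D k))} := by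
    apply bc _ (fun k => ((2 : ℝ) ^ (-(1 / 20) : ℝ)) ^ k) (fun k => by positivity)
    · apply summable_geometric_of_lt_one (by positivity)
      exact Real.rpow_lt_one_of_one_lt_of_neg (by norm_num) (by norm_num)
    · intro k hk
      refine (vol_cells (D (ph D k)) (chain_pos hm hd _) _).trans ?_
      apply ENNReal.ofReal_le_ofReal
      have hb : (0 : ℝ) < D (ph D k) := by exact_mod_cast chain_pos hm hd _
      rw [div_le_iff₀ hb]
      have h3 := hx3 (D k) (by have := hDk0 k hk; omega) (D (ph D k)) (Hf D k) (Hf_mul hd k)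
        (Hf_big hm hd (hcube k hk))
      refine h3.trans ?_
      rw [mul_comm]
      apply mul_le_mul_of_nonneg_right _ hb.le
      have h4 : ((2 : ℝ) ^ k) ≤ D k := by exact_mod_cast chain_pow hm hd k
      calc ((D k : ℕ) : ℝ) ^ (-(1 / 20) : ℝ) ≤ ((2 : ℝ) ^ k) ^ (-(1 / 20) : ℝ) :=
            Real.rpow_le_rpow_of_nonpos (by positivity) h4 (by norm_num)
        _ = ((2 : ℝ) ^ (-(1 / 20) : ℝ)) ^ k := by
            rw [← Real.rpow_natCast, ← Real.rpow_natCast, ← Real.rpow_mul (by norm_num),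
              ← Real.rpow_mul (by norm_num), mul_comm]
  -- the subsequence
  have hS := SS_tendsto hns k0
  have hS00 : SS D k0 0 ≤ 2 := by
    unfold SS
    rw [Ico_eq_empty (by omega), sum_empty]
    norm_num
  have hS0 : ∀ K, K < k0 → SS D k0 K = 0 := by
    intro K hK
    unfold SS
    rw [Ico_eq_empty (by omega), sum_empty]
  have hS1 : ∀ K, SS D k0 (K + 1) ≤ SS D k0 K + 2 := by
    intro K
    rcases le_or_gt k0 (K + 1) with h | h
    · unfold SS
      rw [sum_Ico_succ_top h]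
      have h3 : 1 / Real.log (D (K + 1)) ≤ 2 := by
        have h4 : (1 : ℝ) / 2 ≤ Real.log (D (K + 1)) := by
          calc (1 : ℝ) / 2 ≤ Real.log 2 := by linarith [Real.log_two_gt_d9]
            _ ≤ Real.log (D (K + 1)) := by
                apply Real.log_le_log (by norm_num)
                exact_mod_cast hk1.trans (hm.monotone h)
        rw [div_le_iff₀ (by linarith)]
        linarith
      linarith
    · rw [hS0 (K + 1) h, hS0 K (by omega)]
      norm_num
  have hA2 : ∀ᵐ α : ℝ, ∀ᶠ m in atTop, α ∉ {α : ℝ | 0 ≤ α ∧ ⌊α * ((D (kap hS m) : ℕ) : ℝ)⌋₊ ∈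
      (Ico (j * D (kap hS m)) ((j + 1) * D (kap hS m))).filter (fun n =>
        c1 / 4 * SS D k0 (kap hS m) ≤ |Tf D (Ik a D) k0 (kap hS m) n|)} := by
    apply bc _ (fun m => C' / (c1 / 4) ^ 2 * (1 / 2) ^ m) (fun m => by positivity)
    · apply Summable.mul_left
      exact summable_geometric_of_lt_one (by norm_num) (by norm_num)
    · intro m (hm0 : 0 ≤ m)
      set K := kap hS m with hK
      refine (vol_cells (D K) (chain_pos hm hd _) _).trans ?_
      apply ENNReal.ofReal_le_ofReal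
      have hb : (0 : ℝ) < D K := by exact_mod_cast chain_pos hm hd _
      have hSK : (2 : ℝ) ^ m ≤ SS D k0 K := kap_spec hS m
      have hSp : 0 < SS D k0 K := lt_of_lt_of_le (by positivity) hSK
      have hKk : k0 ≤ K := by
        by_contra hcon
        rw [hS0 K (by omega)] at hSp
        exact lt_irrefl _ hSp
      set V := (Ico (j * D K) ((j + 1) * D K)).filter (fun n =>
        c1 / 4 * SS D k0 K ≤ |Tf D (Ik a D) k0 K n|) with hV
      have h3 : (V.card : ℝ) * (c1 / 4 * SS D k0 K) ^ 2 ≤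
          ∑ n ∈ Ico (j * D K) ((j + 1) * D K), Tf D (Ik a D) k0 K n ^ 2 := by
        calc (V.card : ℝ) * (c1 / 4 * SS D k0 K) ^ 2 = ∑ _n ∈ V, (c1 / 4 * SS D k0 K) ^ 2 := by
              rw [sum_const, nsmul_eq_mul]
          _ ≤ ∑ n ∈ V, Tf D (Ik a D) k0 K n ^ 2 := by
              apply sum_le_sum
              intro n hn
              rw [hV, mem_filter] at hn
              rw [← sq_abs (Tf D (Ik a D) k0 K n)]
              exact pow_le_pow_left₀ (by positivity) hn.2 2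
          _ ≤ _ := sum_le_sum_of_subset_of_nonneg (filter_subset _ _) fun _ _ _ => sq_nonneg _
      have h4 := hvar K hKk
      unfold Ev at h4
      rw [div_le_iff₀ hb] at h4
      have h5 := h3.trans h4
      have h6 : (V.card : ℝ) / D K ≤ C' / (c1 / 4) ^ 2 / SS D k0 K := by
        rw [div_le_div_iff₀ hb hSp]
        have h7 : (V.card : ℝ) * (c1 / 4) ^ 2 * SS D k0 K ≤ C' * D K := by
          have h8 : ((V.card : ℝ) * (c1 / 4) ^ 2 * SS D k0 K) * SS D k0 K ≤ (C' * D K) * SS D k0 K := by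
            calc ((V.card : ℝ) * (c1 / 4) ^ 2 * SS D k0 K) * SS D k0 K =
                (V.card : ℝ) * (c1 / 4 * SS D k0 K) ^ 2 := by ring
              _ ≤ _ := h5
              _ = _ := by ring
          exact le_of_mul_le_mul_right h8 hSp
        have h9 : C' / (c1 / 4) ^ 2 * D K = (C' * D K) / (c1 / 4) ^ 2 := by ring
        rw [h9, le_div_iff₀ (by positivity)]
        calc (V.card : ℝ) * SS D k0 K * (c1 / 4) ^ 2 = (V.card : ℝ) * (c1 / 4) ^ 2 * SS D k0 K := by ring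
          _ ≤ _ := h7
      refine h6.trans ?_
      calc C' / (c1 / 4) ^ 2 / SS D k0 K ≤ C' / (c1 / 4) ^ 2 / 2 ^ m :=
            div_le_div_of_nonneg_left (by positivity) (by positivity) hSK
        _ = _ := by
            rw [one_div, inv_pow, div_eq_mul_inv (C' / (c1 / 4) ^ 2)]
  filter_upwards [hA1, hA2] with α a1 a2
  intro hαj hα0
  -- the conditional averages are large
  have hbig : ∀ᶠ k in atTop, k0 ≤ k ∧ c1 / Real.log (D k) ≤
      qf (Ik a D k) (Hf D k) ⌊α * ((D (ph D k) : ℕ) : ℝ)⌋₊ := by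
    obtain ⟨l, hl⟩ := exists_nat_gt (1 / α)
    filter_upwards [a1, ph_big hm l, eventually_ge_atTop k0] with k b1 b2 b3
    refine ⟨b3, ?_⟩
    by_contra hcon
    rw [not_le] at hcon
    apply b1
    refine ⟨hα0.le, ?_⟩
    rw [mem_filter]
    refine ⟨floor_Ico (chain_pos hm hd _) hαj, ?_, ?_⟩
    · apply Nat.le_floor
      push_cast
      rw [div_lt_iff₀ hα0] at hl
      have h3 : (l : ℝ) ≤ D (ph D k) := by exact_mod_cast b2
      nlinarith
    · have hHp : (0 : ℝ) < (Hf D k : ℕ) := by exact_mod_cast Hf_pos hm hd k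
      have e1 := qf_card (P3 a (D k)) (Hf D k) ⌊α * ((D (ph D k) : ℕ) : ℝ)⌋₊
      have e2 : qf (Ik a D k) (Hf D k) ⌊α * ((D (ph D k) : ℕ) : ℝ)⌋₊ =
        (((Ico (⌊α * ((D (ph D k) : ℕ) : ℝ)⌋₊ * Hf D k) ((⌊α * ((D (ph D k) : ℕ) : ℝ)⌋₊ + 1) * Hf D k)).filter
          (P3 a (D k))).card : ℝ) / (Hf D k : ℕ) := e1
      rw [e2, div_lt_iff₀ hHp] at hcon
      refine lt_of_lt_of_le hcon (le_of_eq ?_)
      ring
  obtain ⟨k1, hk1'⟩ := eventually_atTop.1 hbig
  set R : ℝ := ∑ k ∈ Ico k0 k1, c1 * (1 / Real.log (D k)) with hR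
  have hR0 : 0 ≤ R := sum_nonneg fun k _ => mul_nonneg hc1.le (log_nonneg' k)
  have hqlow : ∀ K, c1 * SS D k0 K - R ≤
      ∑ k ∈ Ico k0 (K + 1), qf (Ik a D k) (Hf D k) ⌊α * ((D (ph D k) : ℕ) : ℝ)⌋₊ := by
    intro K
    have h3 : c1 * SS D k0 K ≤ ∑ k ∈ Ico k0 (K + 1), (qf (Ik a D k) (Hf D k) ⌊α * ((D (ph D k) : ℕ) : ℝ)⌋₊ +
        (if k < k1 then c1 * (1 / Real.log (D k)) else 0)) := by
      unfold SS
      rw [mul_sum]
      apply sum_le_sum
      intro k hk
      split_ifs with h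
      · have := qf_nonneg (Ik_nonneg a D k) (Hf D k) ⌊α * ((D (ph D k) : ℕ) : ℝ)⌋₊
        linarith
      · have h4 := (hk1' k (by omega)).2
        rw [mul_one_div]
        linarith
    rw [sum_add_distrib, ← sum_filter] at h3
    have h4 : ∑ k ∈ (Ico k0 (K + 1)).filter (fun k => k < k1), c1 * (1 / Real.log (D k)) ≤ R := by
      apply sum_le_sum_of_subset_of_nonneg
      · intro k hk
        rw [mem_filter, mem_Ico] at hk
        rw [mem_Ico]
        omega
      · intro k _ _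
        exact mul_nonneg hc1.le (log_nonneg' k)
    linarith
  have hqup : ∀ K, ∑ k ∈ Ico k0 (K + 1), qf (Ik a D k) (Hf D k) ⌊α * ((D (ph D k) : ℕ) : ℝ)⌋₊ ≤
      Cm * SS D k0 K := by
    intro K
    unfold SS
    rw [mul_sum]
    apply sum_le_sum
    intro k hk
    rw [mem_Ico] at hk
    rw [mul_one_div]
    exact h1 k hk.1 _
  -- the decomposition
  have hdec : ∀ K, ∑ k ∈ Ico k0 (K + 1), Ik a D k ⌊α * ((D k : ℕ) : ℝ)⌋₊ =
      Tf D (Ik a D) k0 K ⌊α * ((D K : ℕ) : ℝ)⌋₊ +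
        ∑ k ∈ Ico k0 (K + 1), qf (Ik a D k) (Hf D k) ⌊α * ((D (ph D k) : ℕ) : ℝ)⌋₊ := by
    intro K
    unfold Tf
    rw [← sum_add_distrib]
    apply sum_congr rfl
    intro k hk
    rw [mem_Ico] at hk
    have hkK : k ≤ K := by omega
    have e1 : ⌊α * ((D K : ℕ) : ℝ)⌋₊ / (D K / D k) = ⌊α * ((D k : ℕ) : ℝ)⌋₊ :=
      floor_scale α (Nat.mul_div_cancel' (chain_dvd hd hkK))
        (Nat.div_pos (hm.monotone hkK) (chain_pos hm hd k))
    have e2 : ⌊α * ((D k : ℕ) : ℝ)⌋₊ / Hf D k = ⌊α * ((D (ph D k) : ℕ) : ℝ)⌋₊ :=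
      floor_scale α (Hf_mul hd k) (Hf_pos hm hd k)
    unfold Wf
    rw [e1, e2]
    ring
  apply interp (SS_mono D k0) hS hS00 hS1
  · intro K M hKM
    show ∑ k ∈ Ico k0 (K + 1), Ik a D k ⌊α * ((D k : ℕ) : ℝ)⌋₊ ≤ ∑ k ∈ Ico k0 (M + 1), Ik a D k ⌊α * ((D k : ℕ) : ℝ)⌋₊
    exact sum_le_sum_of_subset_of_nonneg (Ico_subset_Ico_right (by omega)) fun k _ _ => Ik_nonneg a D k _
  · positivity
  · positivity
  · have hlim : Tendsto (fun m : ℕ => (2 : ℝ) ^ m) atTop atTop := tendsto_pow_atTop_atTop_of_one_lt (by norm_num)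
    filter_upwards [a2, hlim.eventually_ge_atTop (4 * R / c1)] with m b1 b2
    set K := kap hS m with hK
    have hSK : (2 : ℝ) ^ m ≤ SS D k0 K := kap_spec hS m
    have hRS : R ≤ c1 / 4 * SS D k0 K := by
      rw [div_le_iff₀ hc1] at b2
      nlinarith
    have hT : |Tf D (Ik a D) k0 K ⌊α * ((D K : ℕ) : ℝ)⌋₊| < c1 / 4 * SS D k0 K := by
      by_contra hcon
      rw [not_lt] at hcon
      apply b1
      refine ⟨hα0.le, ?_⟩
      rw [mem_filter]
      exact ⟨floor_Ico (chain_pos hm hd _) hαj, hcon⟩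
    rw [abs_lt] at hT
    have d1 := hdec K
    have d2 := hqlow K
    have d3 := hqup K
    have hSp : 0 < SS D k0 K := lt_of_lt_of_le (by positivity) hSK
    constructor
    · show c1 / 2 * SS D k0 K ≤ ∑ k ∈ Ico k0 (K + 1), Ik a D k ⌊α * ((D k : ℕ) : ℝ)⌋₊
      rw [d1]
      linarith
    · show ∑ k ∈ Ico k0 (K + 1), Ik a D k ⌊α * ((D k : ℕ) : ℝ)⌋₊ ≤ (Cm + c1) * SS D k0 K
      rw [d1]
      nlinarith

end Pool.Agent.W5h22.QM
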