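import Pool.Agent.W5h22.QM.G

/-!
# QM.H: the two halves of the metric theorem, with the sums over `k < K`
-/

set_option autoImplicit false

namespace Pool.Agent.W5h22.QM

open Finset Filter MeasureTheory

open Classical in
/-- the divergence case, `a` fixed -/
theorem divCase (a : ℤ) (ha : ¬ IsSquare (-a)) : ∃ c C : ℝ, 0 < c ∧ 0 < C ∧ ∀ D : ℕ → ℕ, StrictMono D →
    (∀ k, D k ∣ D (k + 1)) → ¬ Summable (fun k => 1 / Real.log (D k)) →
    ∀ᵐ α : ℝ, 0 < α → ∀ᶠ K in atTop,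
      c * ∑ k ∈ range K, 1 / Real.log (D k) ≤ (((range K).filter (fun k => P3 a (D k) ⌊α * (D k : ℝ)⌋₊)).card : ℝ) ∧
      (((range K).filter (fun k => P3 a (D k) ⌊α * (D k : ℝ)⌋₊)).card : ℝ) ≤ C * ∑ k ∈ range K, 1 / Real.log (D k) := by
  obtain ⟨c, C, hc, hC, H⟩ := window a ha
  refine ⟨c / 2, C + 1, by positivity, by positivity, ?_⟩
  intro D hm hd hns
  have hall : ∀ᵐ α : ℝ, ∀ j : ℕ, α ∈ Set.Ico (j : ℝ) (j + 1) → 0 < α → ∀ᶠ K in atTop,
      c / 2 * ∑ k ∈ range K, 1 / Real.log (D k) ≤ (((range K).filter (fun k => P3 a (D k) ⌊α * (D k : ℝ)⌋₊)).card : ℝ) ∧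
      (((range K).filter (fun k => P3 a (D k) ⌊α * (D k : ℝ)⌋₊)).card : ℝ) ≤
        (C + 1) * ∑ k ∈ range K, 1 / Real.log (D k) := by
    rw [ae_all_iff]
    intro j
    obtain ⟨k0, h0⟩ := H D hm hd hns j
    filter_upwards [h0] with α hα
    intro h1 h2
    have h3 := hα h1 h2
    have hS := SS_tendsto hns k0
    set s0 : ℝ := ∑ k ∈ range k0, 1 / Real.log (D k) with hs0
    have hs00 : 0 ≤ s0 := sum_nonneg fun k _ => log_nonneg' k
    have h4 : ∀ᶠ K in atTop, c / 2 * ∑ k ∈ range (K + 1), 1 / Real.log (D k) ≤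
        (((range (K + 1)).filter (fun k => P3 a (D k) ⌊α * (D k : ℝ)⌋₊)).card : ℝ) ∧
      (((range (K + 1)).filter (fun k => P3 a (D k) ⌊α * (D k : ℝ)⌋₊)).card : ℝ) ≤
        (C + 1) * ∑ k ∈ range (K + 1), 1 / Real.log (D k) := by
      filter_upwards [h3, hS.eventually_ge_atTop s0, hS.eventually_ge_atTop (k0 : ℝ), eventually_ge_atTop k0]
        with K b1 b2 b3 b4
      have e1 := sum_range_add_sum_Ico (fun k => 1 / Real.log (D k)) (show k0 ≤ K + 1 by omega)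
      have e2 : (((range (K + 1)).filter (fun k => P3 a (D k) ⌊α * (D k : ℝ)⌋₊)).card : ℝ) =
          ∑ k ∈ range (K + 1), Ik a D k ⌊α * (D k : ℝ)⌋₊ := by
        rw [card_filter]
        push_cast
        rfl
      have e3 := sum_range_add_sum_Ico (fun k => Ik a D k ⌊α * (D k : ℝ)⌋₊) (show k0 ≤ K + 1 by omega)
      have e4 : 0 ≤ ∑ k ∈ range k0, Ik a D k ⌊α * (D k : ℝ)⌋₊ := sum_nonneg fun k _ => Ik_nonneg a D k _
      have e5 : ∑ k ∈ range k0, Ik a D k ⌊α * (D k : ℝ)⌋₊ ≤ k0 := by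
        calc _ ≤ ∑ _k ∈ range k0, (1 : ℝ) := sum_le_sum fun k _ => Ik_le_one a D k _
          _ = k0 := by simp
      rw [e2, ← e1, ← e3]
      have e6 : ∑ k ∈ Ico k0 (K + 1), 1 / Real.log (D k) = SS D k0 K := rfl
      rw [e6]
      obtain ⟨b5, b6⟩ := b1
      constructor
      · nlinarith
      · have : 0 ≤ SS D k0 K := le_trans hs00 b2
        nlinarith
    obtain ⟨K0, hK0⟩ := eventually_atTop.1 h4
    refine eventually_atTop.2 ⟨K0 + 1, fun K hK => ?_⟩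
    have h5 := hK0 (K - 1) (by omega)
    rwa [show K - 1 + 1 = K by omega] at h5
  filter_upwards [hall] with α hα
  intro h0
  exact hα ⌊α⌋₊ ⟨Nat.floor_le h0.le, Nat.lt_floor_add_one α⟩ h0

open Classical in
/-- the convergence case, `a` and `δ` fixed -/
theorem convCase (a : ℤ) (ha : ¬ IsSquare (-a)) (D : ℕ → ℕ) (hm : StrictMono D)
    (hs : Summable (fun k => 1 / Real.log (D k))) (δ : ℝ) (hδ : 0 < δ) :
    ∀ᵐ α : ℝ, 0 < α → ∀ᶠ k in atTop, ∃ p : ℕ, p.Prime ∧ (p : ℝ) < (D k : ℝ) ^ δ ∧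
      (p : ℤ) ∣ ((⌊α * (D k : ℝ)⌋₊ : ℕ) : ℤ) ^ 2 + a := by
  obtain ⟨t, ht⟩ := exists_nat_gt (1 / δ)
  have ht0 : (0 : ℝ) < t := lt_trans (by positivity) ht
  have ht1 : 1 ≤ t := by
    have : 0 < t := by exact_mod_cast ht0
    omega
  have htδ : 1 / (t : ℝ) < δ := by
    rw [div_lt_iff₀ hδ] at ht
    rw [div_lt_iff₀ ht0]
    linarith
  obtain ⟨C, hC, X0, hup⟩ := single a ha t ht1
  have hDk : ∀ k, k ≤ D k := fun k => hm.le_apply
  have hall : ∀ᵐ α : ℝ, ∀ M : ℕ, 0 ≤ α → α < M → ∀ᶠ k in atTop, ∃ p : ℕ, p.Prime ∧ (p : ℝ) < (D k : ℝ) ^ δ ∧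
      (p : ℤ) ∣ ((⌊α * (D k : ℝ)⌋₊ : ℕ) : ℤ) ^ 2 + a := by
    rw [ae_all_iff]
    intro M
    rcases Nat.eq_zero_or_pos M with hM | hM
    · subst hM
      filter_upwards with α h1 h2
      rw [Nat.cast_zero] at h2
      linarith
    have hMr : (1 : ℝ) ≤ M := by exact_mod_cast hM
    -- the sets
    have h1 : ∀ᵐ α : ℝ, ∀ᶠ k in atTop, α ∉ {α : ℝ | 0 ≤ α ∧ ⌊α * ((D k : ℕ) : ℝ)⌋₊ ∈
        insert 0 ((Ioc 0 (0 + M * D k)).filter (fun n : ℕ => ∀ p ∈ Pool.Agent.Y843.HS.Pr 8 ⌊((D k : ℕ) : ℝ) ^ (1 / (t : ℝ))⌋₊,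
          ¬ (p : ℤ) ∣ (n : ℤ) ^ 2 + a))} := by
      apply bc _ (fun k => (1 + C * M) * (1 / Real.log (D k))) (fun k => mul_nonneg (by positivity) (log_nonneg' k))
        (hs.mul_left _) (X0 + 2)
      intro k hk
      have hDk2 : X0 + 2 ≤ D k := hk.trans (hDk k)
      have hDp : 0 < D k := by omega
      refine (vol_cells (D k) hDp _).trans ?_
      apply ENNReal.ofReal_le_ofReal
      have hb : (0 : ℝ) < D k := by exact_mod_cast hDp
      have hb1 : (1 : ℝ) < D k := by exact_mod_cast (show 1 < D k by omega)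
      have hl : 0 < Real.log (D k) := Real.log_pos hb1
      rw [div_le_iff₀ hb]
      have h4 : ((D k : ℕ) : ℝ) ^ (1 / 4 : ℝ) ≤ ((M * D k : ℕ) : ℝ) := by
        push_cast
        calc ((D k : ℕ) : ℝ) ^ (1 / 4 : ℝ) ≤ ((D k : ℕ) : ℝ) ^ (1 : ℝ) :=
              Real.rpow_le_rpow_of_exponent_le hb1.le (by norm_num)
          _ = D k := Real.rpow_one _
          _ ≤ M * D k := by nlinarith
      have h5 := hup (D k) (by omega) 0 (M * D k) h4
      have h6 := card_insert_le 0 ((Ioc 0 (0 + M * D k)).filter (fun n : ℕ =>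
        ∀ p ∈ Pool.Agent.Y843.HS.Pr 8 ⌊((D k : ℕ) : ℝ) ^ (1 / (t : ℝ))⌋₊, ¬ (p : ℤ) ∣ (n : ℤ) ^ 2 + a))
      have h7 : (((insert 0 ((Ioc 0 (0 + M * D k)).filter (fun n : ℕ =>
        ∀ p ∈ Pool.Agent.Y843.HS.Pr 8 ⌊((D k : ℕ) : ℝ) ^ (1 / (t : ℝ))⌋₊, ¬ (p : ℤ) ∣ (n : ℤ) ^ 2 + a))).card : ℕ) : ℝ) ≤
          C * ((M * D k : ℕ) : ℝ) / Real.log (D k) + 1 := by
        refine le_trans (Nat.cast_le.2 h6) ?_
        push_cast
        push_cast at h5
        linarith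
      refine h7.trans ?_
      have h8 : (1 : ℝ) ≤ 1 / Real.log (D k) * D k := by
        rw [div_mul_eq_mul_div, one_mul, le_div_iff₀ hl, one_mul]
        exact (Real.log_le_sub_one_of_pos hb).trans (by linarith)
      push_cast
      calc C * (M * (D k : ℝ)) / Real.log (D k) + 1 ≤
            C * (M * (D k : ℝ)) / Real.log (D k) + 1 / Real.log (D k) * D k := by linarith
        _ = _ := by ring
    filter_upwards [h1] with α a1
    intro h0 hαM
    filter_upwards [a1, eventually_ge_atTop 2] with k b1 b2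
    by_contra hcon
    push Not at hcon
    apply b1
    refine ⟨h0, ?_⟩
    have hDp : 2 ≤ D k := b2.trans (hDk k)
    have hb1 : (1 : ℝ) < D k := by exact_mod_cast (show 1 < D k by omega)
    rw [mem_insert]
    rcases Nat.eq_zero_or_pos ⌊α * ((D k : ℕ) : ℝ)⌋₊ with h | h
    · exact Or.inl h
    · right
      rw [mem_filter, mem_Ioc]
      refine ⟨⟨h, ?_⟩, ?_⟩
      · rw [zero_add]
        apply Nat.floor_le_of_le
        push_cast
        exact mul_le_mul_of_nonneg_right hαM.le (by positivity)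
      · intro p hp hdvd
        rw [Pool.Agent.Y843.HS.Pr_mem] at hp
        have h3 : (p : ℝ) ≤ ((D k : ℕ) : ℝ) ^ (1 / (t : ℝ)) :=
          le_trans (by exact_mod_cast hp.1.2) (Nat.floor_le (by positivity))
        have h4 : ((D k : ℕ) : ℝ) ^ (1 / (t : ℝ)) < ((D k : ℕ) : ℝ) ^ δ :=
          Real.rpow_lt_rpow_of_exponent_lt hb1 htδ
        exact hcon p hp.2 (lt_of_le_of_lt h3 h4) hdvd
  filter_upwards [hall] with α hα
  intro h0
  obtain ⟨M, hM⟩ := exists_nat_gt α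
  exact hα M h0.le hM

end Pool.Agent.W5h22.QM
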